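import Pool.Agent.W574.LM.PR
import Pool.Agent.W574.SM.PlaneMain

set_option autoImplicit false
set_option linter.unusedSectionVars false
set_option linter.unusedVariables false

/-! # The poles of the contribution of a point, local functional equations -/

namespace Pool.Agent.W574.LM

open Pool.Agent.W574.SM

open Polynomial

variable {ι : Type} [Fintype ι] [DecidableEq ι]

/-- the geometry of a node -/
def GeomL (H : MP) (f : ι → MP) (g : ι → MP) (a0 n0 a1 n1 : ℕ) : Prop :=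
  ∃ (ξ : Fin 2 → MP) (W W' : MP), MvPolynomial.constantCoeff W ≠ 0 ∧
    MvPolynomial.constantCoeff W' ≠ 0 ∧
    (∀ j, MvPolynomial.aeval ξ (f j)
      = MvPolynomial.X 0 ^ a0 * MvPolynomial.X 1 ^ a1 * W * g j) ∧
    jac ξ = MvPolynomial.X 0 ^ (n0 - 1) * MvPolynomial.X 1 ^ (n1 - 1) * W' ∧
    MvPolynomial.constantCoeff (MvPolynomial.aeval ξ H) ≠ 0

theorem geom_chart0L (H : MP) (f g g' : ι → MP) (a0 n0 a1 n1 : ℕ) (hn0 : 1 ≤ n0) (hn1 : 1 ≤ n1)
    (h : GeomL H f g a0 n0 a1 n1) (m : ℕ)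
    (hg : ∀ j, MvPolynomial.aeval (chart 0) (g j) = MvPolynomial.X 0 ^ m * g' j) :
    GeomL H f g' (a0 + a1 + m) (n0 + n1) a1 n1 := by
  obtain ⟨ξ, W, W', hW, hW', hf, hJ, hHc⟩ := h
  obtain ⟨h1, h2⟩ := geom_chart_aux f g g' a0 n0 a1 n1 hn0 hn1 ξ W W' hf hJ m 0 hg
  refine ⟨fun i => MvPolynomial.aeval (chart 0) (ξ i), MvPolynomial.aeval (chart 0) W,
    MvPolynomial.aeval (chart 0) W', ?_, ?_, ?_, ?_, ?_⟩
  rotate_left 2
  · intro j
    rw [h1, map_zero, add_zero]
    ring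
  · rw [h2, map_zero, add_zero]
    ring
  · rwa [aeval_comp, cc_chart]
  · rwa [cc_chart]
  · rwa [cc_chart]

theorem geom_chartL (H : MP) (f g g' : ι → MP) (a0 n0 a1 n1 : ℕ) (hn0 : 1 ≤ n0) (hn1 : 1 ≤ n1)
    (h : GeomL H f g a0 n0 a1 n1) (m : ℕ) (c : ℂ) (hc : c ≠ 0)
    (hg : ∀ j, MvPolynomial.aeval (chart c) (g j) = MvPolynomial.X 0 ^ m * g' j) :
    GeomL H f g' (a0 + a1 + m) (n0 + n1) 0 1 := by
  obtain ⟨ξ, W, W', hW, hW', hf, hJ, hHc⟩ := h
  obtain ⟨h1, h2⟩ := geom_chart_aux f g g' a0 n0 a1 n1 hn0 hn1 ξ W W' hf hJ m c hg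
  refine ⟨fun i => MvPolynomial.aeval (chart c) (ξ i),
    (MvPolynomial.X 1 + MvPolynomial.C c) ^ a1 * MvPolynomial.aeval (chart c) W,
    (MvPolynomial.X 1 + MvPolynomial.C c) ^ (n1 - 1) * MvPolynomial.aeval (chart c) W',
    ?_, ?_, ?_, ?_, ?_⟩
  rotate_left 2
  · intro j
    rw [h1]
    ring
  · rw [h2]
    simp only [Nat.sub_self, pow_zero, mul_one]
  · rwa [aeval_comp, cc_chart]
  · rw [map_mul, map_pow, map_add, MvPolynomial.constantCoeff_X, MvPolynomial.constantCoeff_C,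
      zero_add, cc_chart]
    exact mul_ne_zero (pow_ne_zero _ hc) hW
  · rw [map_mul, map_pow, map_add, MvPolynomial.constantCoeff_X, MvPolynomial.constantCoeff_C,
      zero_add, cc_chart]
    exact mul_ne_zero (pow_ne_zero _ hc) hW'

theorem geom_chartIL (H : MP) (f g g' : ι → MP) (a0 n0 a1 n1 : ℕ) (hn0 : 1 ≤ n0) (hn1 : 1 ≤ n1)
    (h : GeomL H f g a0 n0 a1 n1) (m : ℕ)
    (hg : ∀ j, MvPolynomial.aeval chartI (g j) = MvPolynomial.X 1 ^ m * g' j) :
    GeomL H f g' a0 n0 (a0 + a1 + m) (n0 + n1) := by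
  obtain ⟨ξ, W, W', hW, hW', hf, hJ, hHc⟩ := h
  refine ⟨fun i => MvPolynomial.aeval chartI (ξ i), MvPolynomial.aeval chartI W,
    MvPolynomial.aeval chartI W', by rwa [cc_chartI], by rwa [cc_chartI], ?_, ?_,
    by rwa [aeval_comp, cc_chartI]⟩
  · intro j
    rw [aeval_comp, hf, map_mul, map_mul, map_mul, map_pow, map_pow, chartI_X0, chartI_X1, hg,
      mul_pow]
    ring
  · rw [jac_comp, hJ, map_mul, map_mul, map_pow, map_pow, chartI_X0, chartI_X1, jac_chartI,
      mul_pow]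
    have h : n0 + n1 - 1 = 1 + (n0 - 1) + (n1 - 1) := by omega
    rw [h]
    ring

theorem blow_analysisL (f : ι → MP) (b : ℂ[X]) (H : MP) (hb : IsLocEq H f b) (g : ι → MP)
    (a0 n0 a1 n1 : ℕ) (hn0 : 1 ≤ n0) (hn1 : 1 ≤ n1) (hgeom : GeomL H f g a0 n0 a1 n1)
    (m : ℕ) (hm : 1 ≤ m) (gc : ℂ → ι → MP) (gI : ι → MP)
    (hgc : ∀ c j, MvPolynomial.aeval (chart c) (g j) = MvPolynomial.X 0 ^ m * gc c j)
    (hgI : ∀ j, MvPolynomial.aeval chartI (g j) = MvPolynomial.X 1 ^ m * gI j)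
    (S : Finset ℂ) (h0S : 0 ∈ S)
    (hS : ∀ c ∉ S, ∃ j, MvPolynomial.constantCoeff (gc c j) ≠ 0)
    (hJ1 : (n0 - 1) * m ≤ a0 ∧ (n1 - 1) * m ≤ a1)
    (hJ2 : 0 < a0 → (n0 - 1) * a1 < a0 * n1) (hJ2' : 0 < a1 → (n1 - 1) * a0 < a1 * n0)
    (hz0 : a0 = 0 → n0 = 1) (hz1 : a1 = 0 → n1 = 1) (s0 : ℂ) (hs0 : b.eval s0 ≠ 0)
    (hA : ((n0 + n1 : ℕ) : ℂ) + ((a0 + a1 + m : ℕ) : ℂ) * s0 = 0) :
    ∃ (μ : ℂ → ℕ) (μI : ℕ), (∀ c, Ord0 (gc c) (μ c)) ∧ Ord1 gI μI ∧
      (n1 : ℂ) + s0 * ((a1 + μ 0 : ℕ) : ℂ) ≠ 0 ∧ (n0 : ℂ) + s0 * ((a0 + μI : ℕ) : ℂ) ≠ 0 ∧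
      (∀ c, c ≠ 0 → 1 + s0 * (μ c : ℂ) ≠ 0) ∧
      1 / ((n0 : ℂ) + s0 * ((a0 + μI : ℕ) : ℂ)) + 1 / ((n1 : ℂ) + s0 * ((a1 + μ 0 : ℕ) : ℂ)) +
      ∑ c ∈ S.erase 0, 1 / (1 + s0 * (μ c : ℂ)) + 1 - S.card = 0 := by
  classical
  obtain ⟨ξ, W, W', hW, hW', hf, hJ, hHc⟩ := hgeom
  obtain ⟨hf0, hJ0⟩ := geom_chart_aux f g (gc 0) a0 n0 a1 n1 hn0 hn1 ξ W W' hf hJ m 0 (hgc 0)
  rw [map_zero, add_zero] at hJ0
  simp only [map_zero, add_zero] at hf0
  set ξ0 : Fin 2 → MP := fun i => MvPolynomial.aeval (chart 0) (ξ i) with hξ0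
  set a := a0 + a1 + m with ha
  set n := n0 + n1 with hn
  have hapos : 0 < a := by omega
  have hac : (a : ℂ) ≠ 0 := Nat.cast_ne_zero.2 hapos.ne'
  have hs : s0 = -(n : ℂ) / a := by
    rw [eq_div_iff hac]
    linear_combination hA
  set P : ι → ℂ[X] := fun j => res0 (gc 0 j) with hP
  have hPc : ∀ c j, res0 (gc c j) = (P j).comp (X + C c) := fun c j =>
    res0_chart (g j) (gc 0 j) (gc c j) m c (hgc 0 j) (hgc c j)
  have hPS : ∀ c ∉ S, ∃ j, (P j).eval c ≠ 0 := by
    intro c hc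
    obtain ⟨j, hj⟩ := hS c hc
    refine ⟨j, ?_⟩
    rw [← coeff_res0, hPc, coeff_zero_eq_eval_zero, eval_comp] at hj
    simpa using hj
  obtain ⟨c1, hc1⟩ := Infinite.exists_notMem_finset S
  obtain ⟨j0, hj0⟩ := hPS c1 hc1
  have hPj0 : P j0 ≠ 0 := by
    intro h
    rw [h, eval_zero] at hj0
    exact hj0 rfl
  set w := MvPolynomial.constantCoeff W with hw
  set w' := MvPolynomial.constantCoeff W' with hw'
  set G : ι → MP := fun j => MvPolynomial.X 1 ^ a1 * MvPolynomial.aeval (chart 0) W * gc 0 j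
    with hG
  set Jp : MP := MvPolynomial.X 1 ^ (n1 - 1) * MvPolynomial.aeval (chart 0) W' with hJp
  have hresG : ∀ j, res0 (G j) = C w * (X ^ a1 * P j) := by
    intro j
    rw [hG]
    simp only
    rw [map_mul, map_mul, map_pow, res0_X1, res0_chart_const]
    ring
  have hresJ : res0 Jp = C w' * X ^ (n1 - 1) := by
    rw [hJp, map_mul, map_pow, res0_X1, res0_chart_const]
    ring
  have hH1 : res0 (MvPolynomial.aeval ξ0 H)
      = C (MvPolynomial.constantCoeff (MvPolynomial.aeval ξ H)) := by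
    rw [hξ0, aeval_comp, res0_chart_const]
  have hHe : ∀ c : ℂ, MvPolynomial.eval ![0, c] (MvPolynomial.aeval ξ0 H) ≠ 0 := by
    intro c
    rw [← eval_res0, hH1, eval_C]
    exact hHc
  have hHr : resM (RatFunc.X : RatFunc ℂ) (MvPolynomial.aeval ξ0 H) ≠ 0 := by
    rw [resM_eq, hH1]
    exact am_ne (C_ne_zero.2 hHc)
  -- the leading forms are proportional
  have hprop : ∀ i, ∃ lam : ℂ, P i = C lam * P j0 := by
    intro i
    by_cases hWr : derivative (P i) * P j0 - P i * derivative (P j0) = 0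
    · exact prop_of_wronskian (P i) (P j0) hPj0 hWr
    · exfalso
      have hne : X * (P j0 * (derivative (P i) * P j0 - P i * derivative (P j0))) ≠ 0 :=
        mul_ne_zero X_ne_zero (mul_ne_zero hPj0 hWr)
      obtain ⟨c, hc⟩ : ∃ c : ℂ,
          (X * (P j0 * (derivative (P i) * P j0 - P i * derivative (P j0)))).eval c ≠ 0 := by
        by_contra hall
        push Not at hall
        exact hne (Polynomial.funext (fun x => by rw [hall x, eval_zero]))
      rw [eval_mul, eval_mul, eval_X] at hc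
      have hc0 : c ≠ 0 := left_ne_zero_of_mul hc
      have hcP : (P j0).eval c ≠ 0 := left_ne_zero_of_mul (right_ne_zero_of_mul hc)
      have hcW : (derivative (P i) * P j0 - P i * derivative (P j0)).eval c ≠ 0 :=
        right_ne_zero_of_mul (right_ne_zero_of_mul hc)
      apply hs0
      rw [hs]
      refine plane_reesL f b H hb ξ0 a n hapos (by omega) G hf0 Jp hJ0 c (hHe c) ?_ j0 i ?_ ?_
      · rw [← eval_res0, hresJ, eval_mul, eval_C, eval_pow, eval_X]
        exact mul_ne_zero hW' (pow_ne_zero _ hc0)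
      · rw [← eval_res0, hresG, eval_mul, eval_C, eval_mul, eval_pow, eval_X]
        exact mul_ne_zero hW (mul_ne_zero (pow_ne_zero _ hc0) hcP)
      · rw [← eval_res0, map_sub, map_mul res0 (MvPolynomial.pderiv 1 (G i)) (G j0),
          map_mul res0 (G i) (MvPolynomial.pderiv 1 (G j0)), res0_pderiv, res0_pderiv, hresG,
          hresG]
        have h1 : derivative (C w * (X ^ a1 * P i)) * (C w * (X ^ a1 * P j0))
            - C w * (X ^ a1 * P i) * derivative (C w * (X ^ a1 * P j0))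
            = C w ^ 2 * (X ^ a1) ^ 2 *
              (derivative (P i) * P j0 - P i * derivative (P j0)) := by
          simp only [derivative_mul, derivative_C]
          ring
        rw [h1, eval_mul, eval_mul, eval_pow, eval_pow, eval_C, eval_pow, eval_X]
        exact mul_ne_zero (mul_ne_zero (pow_ne_zero _ hW) (pow_ne_zero _ (pow_ne_zero _ hc0))) hcW
  choose lam hlam using hprop
  -- there is a rational solution
  have hsol : ∃ R : RatFunc ℂ, dR R + algebraMap ℂ (RatFunc ℂ) (-(n : ℂ) / a) *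
      (dR (resM RatFunc.X (G j0)) * (resM RatFunc.X (G j0))⁻¹) * R = resM RatFunc.X Jp := by
    by_contra hno
    push Not at hno
    apply hs0
    rw [hs]
    refine tw_rootL dR RatFunc.X ?_ f b H hb ξ0 hHr a n hapos (by omega) G hf0 Jp hJ0 ?_ j0 ?_ hno
    · rw [← RatFunc.algebraMap_X, dR_algebraMap, derivative_X, map_one]
    · rw [resM_eq, hresJ]
      exact am_ne (mul_ne_zero (C_ne_zero.2 hW') (pow_ne_zero _ X_ne_zero))
    · rw [resM_eq, hresG]
      exact am_ne (mul_ne_zero (C_ne_zero.2 hW) (mul_ne_zero (pow_ne_zero _ X_ne_zero) hPj0))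
  obtain ⟨R, hR⟩ := hsol
  set Q : ℂ[X] := X ^ a1 * P j0 with hQ
  have hQ0 : Q ≠ 0 := mul_ne_zero (pow_ne_zero _ X_ne_zero) hPj0
  have hR' : dR R + algebraMap ℂ (RatFunc ℂ) (-(n : ℂ) / a) *
      (dR (algebraMap ℂ[X] (RatFunc ℂ) Q) * (algebraMap ℂ[X] (RatFunc ℂ) Q)⁻¹) * R
        = algebraMap ℂ[X] (RatFunc ℂ) (C w' * X ^ (n1 - 1)) := by
    rw [resM_eq, resM_eq, hresG, hresJ] at hR
    rw [← hR]
    congr 3
    have h1 : algebraMap ℂ[X] (RatFunc ℂ) (C w * (X ^ a1 * P j0))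
        = algebraMap ℂ (RatFunc ℂ) w * algebraMap ℂ[X] (RatFunc ℂ) Q := by
      rw [map_mul]; rfl
    rw [h1, Derivation.leibniz, Derivation.map_algebraMap, smul_zero, add_zero, smul_eq_mul]
    have hwne : algebraMap ℂ (RatFunc ℂ) w ≠ 0 := by
      rw [Ne, map_eq_zero]; exact hW
    have hQne := am_ne hQ0
    field_simp
  obtain ⟨A, hAne, hAeq⟩ := sol_poly Q hQ0 n a hapos w' hW' (n1 - 1) R hR'
  have hdeg := coeff_resI (g j0) (gc 0 j0) (gI j0) m (hgc 0 j0) (hgI j0)
  have hbr := bracket (P j0) hPj0 m a0 n0 a1 n1 hdeg.1 hm hn0 hn1 S h0S (by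
      intro c hc h
      obtain ⟨j, hj⟩ := hPS c hc
      rw [hlam j, eval_mul, h, mul_zero] at hj
      exact hj rfl) (by
      intro h
      by_cases ha1 : 0 < a1
      · have h1 := hJ2' ha1
        have h2 := hJ1.2
        have h3 : (n1 - 1) * a = (n1 - 1) * a0 + (n1 - 1) * a1 + (n1 - 1) * m := by
          rw [ha]; ring
        have h4 : (n1 - 1) * a1 + a1 = a1 * n1 := by
          have : n1 = (n1 - 1) + 1 := by omega
          conv_rhs => rw [this]
          ring
        have h5 : n * (a1 + (P j0).rootMultiplicity 0)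
            = a1 * n0 + a1 * n1 + n * (P j0).rootMultiplicity 0 := by
          rw [hn]; ring
        have h6 : 0 ≤ n * (P j0).rootMultiplicity 0 := Nat.zero_le _
        show (n1 - 1) * a < n * (a1 + (P j0).rootMultiplicity 0)
        omega
      · have h1 : a1 = 0 := by omega
        have h2 := hz1 h1
        rw [h2, Nat.sub_self, zero_mul]
        exact Nat.mul_pos (by omega) h) hz1 (by
      intro h
      by_cases ha0 : 0 < a0
      · have h1 := hJ2 ha0
        have h2 := hJ1.1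
        have h3 : (n0 - 1) * a = (n0 - 1) * a0 + (n0 - 1) * a1 + (n0 - 1) * m := by
          rw [ha]; ring
        have h4 : (n0 - 1) * a0 + a0 = a0 * n0 := by
          have : n0 = (n0 - 1) + 1 := by omega
          conv_rhs => rw [this]
          ring
        have h5 : n * (a0 + (m - (P j0).natDegree))
            = a0 * n0 + a0 * n1 + n * (m - (P j0).natDegree) := by
          rw [hn]; ring
        have h6 : 0 ≤ n * (m - (P j0).natDegree) := Nat.zero_le _
        show (n0 - 1) * a < n * (a0 + (m - (P j0).natDegree))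
        omega
      · have h1 : a0 = 0 := by omega
        have h2 := hz0 h1
        rw [h2, Nat.sub_self, zero_mul]
        exact Nat.mul_pos (by omega) h) hz0 w' hW' A hAne s0 hs (by rw [hs]; exact hAeq)
  refine ⟨fun c => (P j0).rootMultiplicity c, m - (P j0).natDegree, ?_, ?_, hbr.1, hbr.2.1,
    hbr.2.2.1, hbr.2.2.2⟩
  · intro c
    have h1 := ord_comp (P j0) hPj0 c
    constructor
    · intro j k hk
      rw [hPc, hlam j, mul_comp, C_comp, coeff_C_mul, h1.1 k hk, mul_zero]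
    · refine ⟨j0, ?_⟩
      rw [hPc]
      exact h1.2
  · constructor
    · intro j k hk
      have h1 := (coeff_resI (g j) (gc 0 j) (gI j) m (hgc 0 j) (hgI j)).2.2 k (by omega)
      have h2 : res0 (gc 0 j) = C (lam j) * P j0 := hlam j
      rw [h1, h2, coeff_C_mul, coeff_eq_zero_of_natDegree_lt (by omega), mul_zero]
    · refine ⟨j0, ?_⟩
      rw [hdeg.2.2 _ (by omega)]
      have h3 : m - (m - (P j0).natDegree) = (P j0).natDegree := by
        have := hdeg.1
        have h4 : (P j0).natDegree ≤ m := this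
        omega
      rw [h3]
      exact leadingCoeff_ne_zero.2 hPj0

/-- the induction hypothesis at a node -/
structure InvL (H : MP) (f : ι → MP) (s0 : ℂ) (g : ι → MP) (a0 n0 a1 n1 : ℕ) : Prop where
  geom : GeomL H f g a0 n0 a1 n1
  hn0 : 1 ≤ n0
  hn1 : 1 ≤ n1
  hz0 : a0 = 0 → n0 = 1
  hz1 : a1 = 0 → n1 = 1
  hJ1 : ∀ m, IsMult g m → (n0 - 1) * m ≤ a0 ∧ (n1 - 1) * m ≤ a1
  hJ2 : 0 < a0 → (n0 - 1) * a1 < a0 * n1
  hJ2' : 0 < a1 → (n1 - 1) * a0 < a1 * n0
  hH0 : (n0 : ℂ) + a0 * s0 = 0 → ∀ μ, Ord0 g μ → (n1 : ℂ) + s0 * ((a1 + μ : ℕ) : ℂ) ≠ 0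
  hH1 : (n1 : ℂ) + a1 * s0 = 0 → ∀ μ, Ord1 g μ → (n0 : ℂ) + s0 * ((a0 + μ : ℕ) : ℂ) ≠ 0

/-- **The poles of the contribution of a point.** -/
theorem local_mainL (f : ι → MP) (b : ℂ[X]) (H : MP) (hb : IsLocEq H f b) (s0 : ℂ)
    (hs0 : b.eval s0 ≠ 0) {g : ι → MP} {a0 n0 a1 n1 : ℕ} {Z : RatFunc ℂ}
    (hZ : LocalZeta g a0 n0 a1 n1 Z) : InvL H f s0 g a0 n0 a1 n1 → Good s0 g a0 n0 a1 n1 Z := by
  classical
  induction hZ with
  | unit g a0 n0 a1 n1 j hj =>
    intro inv
    have ho0 : Ord0 g 0 := ⟨fun i k hk => absurd hk (Nat.not_lt_zero k),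
      ⟨j, by rw [coeff_res0]; exact hj⟩⟩
    have ho1 : Ord1 g 0 := ⟨fun i k hk => absurd hk (Nat.not_lt_zero k),
      ⟨j, by rw [coeff_res1]; exact hj⟩⟩
    by_cases hA0 : (n0 : ℂ) + a0 * s0 = 0
    · have hA1 : (n1 : ℂ) + a1 * s0 ≠ 0 := by
        have := inv.hH0 hA0 0 ho0
        rw [add_zero] at this
        intro h
        apply this
        rw [← h]
        ring
      exact good_leaf s0 g a0 n0 a1 n1 a1 n1 hA0 inv.hz0 hA1 hA1 0 ho0 (by rw [add_zero]; ring)
    · by_cases hA1 : (n1 : ℂ) + a1 * s0 = 0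
      · rw [mul_comm]
        exact good_leaf' s0 g a0 n0 a1 n1 a0 n0 hA1 inv.hz1 hA0 hA0 0 ho1
          (by rw [add_zero]; ring)
      · exact good_reg s0 g a0 n0 a1 n1 _ hA0 hA1
          ((Reg s0).mul_mem (fac_mem _ _ _ hA0) (fac_mem _ _ _ hA1))
  | curveV g a0 n0 m hm h k hg h0 h1 j hj =>
    intro inv
    have hA1 : ((1 : ℕ) : ℂ) + ((0 : ℕ) : ℂ) * s0 ≠ 0 := by simp
    have hm1 : ((1 : ℕ) : ℂ) + (m : ℂ) * s0 ≠ 0 := by
      intro h2
      apply hs0
      have hmc : (m : ℂ) ≠ 0 := Nat.cast_ne_zero.2 (by omega)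
      have h3 : s0 = -1 / (m : ℂ) := by
        rw [eq_div_iff hmc]
        push_cast at h2
        linear_combination h2
      rw [h3]
      obtain ⟨ξ, W, W', hW, hW', hf, hJ, hHc⟩ := inv.geom
      refine node_curveVL f b H hb ξ hHc W W' hW hW' a0 n0 m (by omega) h k ?_ ?_ h0 h1 j hj
      · intro i
        rw [hf, hg, pow_zero, mul_one]
      · rw [hJ, Nat.sub_self, pow_zero, mul_one]
    have ho := ord0_curve g m h k hg h0 h1 j hj
    by_cases hA0 : (n0 : ℂ) + a0 * s0 = 0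
    · exact good_leaf s0 g a0 n0 0 1 m 1 hA0 inv.hz0 hA1 hm1 m ho (by push_cast; ring)
    · exact good_reg s0 g a0 n0 0 1 _ hA0 hA1
        ((Reg s0).mul_mem (fac_mem _ _ _ hA0) (fac_mem _ _ _ hm1))
  | curveU g a1 n1 m hm h k hg h0 h1 j hj =>
    intro inv
    have hA0 : ((1 : ℕ) : ℂ) + ((0 : ℕ) : ℂ) * s0 ≠ 0 := by simp
    have hm1 : ((1 : ℕ) : ℂ) + (m : ℂ) * s0 ≠ 0 := by
      intro h2
      apply hs0
      have hmc : (m : ℂ) ≠ 0 := Nat.cast_ne_zero.2 (by omega)
      have h3 : s0 = -1 / (m : ℂ) := by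
        rw [eq_div_iff hmc]
        push_cast at h2
        linear_combination h2
      rw [h3]
      obtain ⟨ξ, W, W', hW, hW', hf, hJ, hHc⟩ := inv.geom
      refine node_curveUL f b H hb ξ hHc W W' hW hW' a1 n1 m (by omega) h k ?_ ?_ h0 h1 j hj
      · intro i
        rw [hf, hg, pow_zero, one_mul]
      · rw [hJ, Nat.sub_self, pow_zero, one_mul]
    have ho := ord1_curve g m h k hg h0 h1 j hj
    by_cases hA1 : (n1 : ℂ) + a1 * s0 = 0
    · exact good_leaf' s0 g 0 1 a1 n1 m 1 hA1 inv.hz1 hA0 hm1 m ho (by push_cast; ring)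
    · exact good_reg s0 g 0 1 a1 n1 _ hA0 hA1
        ((Reg s0).mul_mem (fac_mem _ _ _ hA1) (fac_mem _ _ _ hm1))
  | blowup g a0 n0 a1 n1 m hm gc gI hgc hgI S h0S hS Zc ZI h0 hc hI ih0 ihc ihI =>
    intro inv
    have hn0 := inv.hn0
    have hn1 := inv.hn1
    have hmult : IsMult g m := ⟨⟨gc 0, hgc 0⟩, ⟨gI, hgI⟩⟩
    have hJ1 := inv.hJ1 m hmult
    -- a generator with nonzero leading form
    obtain ⟨c1, hc1⟩ := Infinite.exists_notMem_finset S
    obtain ⟨j0, hj0⟩ := hS c1 hc1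
    have hresc : ∀ c j, res0 (gc c j) = (res0 (gc 0 j)).comp (X + C c) := fun c j =>
      res0_chart (g j) (gc 0 j) (gc c j) m c (hgc 0 j) (hgc c j)
    have hP0 : res0 (gc 0 j0) ≠ 0 := by
      intro h
      apply hj0
      rw [← coeff_res0, hresc, h, zero_comp, coeff_zero]
    have hdeg := coeff_resI (g j0) (gc 0 j0) (gI j0) m (hgc 0 j0) (hgI j0)
    have hPc : ∀ c, res0 (gc c j0) ≠ 0 ∧ (res0 (gc c j0)).natDegree ≤ m := by
      intro c
      have h1 : (X + C c : ℂ[X]).natDegree = 1 := natDegree_X_add_C c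
      constructor
      · intro h
        have h2 := ord_comp (res0 (gc 0 j0)) hP0 c
        rw [hresc] at h
        rw [h, coeff_zero] at h2
        exact h2.2 rfl
      · rw [hresc, natDegree_comp, h1, mul_one]
        exact hdeg.1
    have hPI : res1 (gI j0) ≠ 0 := by
      intro h
      have h2 := hdeg.2.2 (m - (res0 (gc 0 j0)).natDegree) (by omega)
      rw [h, coeff_zero] at h2
      have h3 : m - (m - (res0 (gc 0 j0)).natDegree) = (res0 (gc 0 j0)).natDegree := by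
        have := hdeg.1
        omega
      rw [h3] at h2
      exact hP0 (leadingCoeff_eq_zero.1 h2.symm)
    have hmc : ∀ c m', IsMult (gc c) m' → m' ≤ m := by
      intro c m' hm'
      obtain ⟨g', hg'⟩ := hm'.2
      exact le_of_dvd (hPc c).1 (hPc c).2 (res0_of_chartI (hg' j0))
    have hmI : ∀ m', IsMult gI m' → m' ≤ m := by
      intro m' hm'
      obtain ⟨g', hg'⟩ := hm'.1
      exact le_of_dvd hPI hdeg.2.1 (res1_of_chart0 (hg' j0))
    have hresI : ∀ j, res0 (g j) = X ^ m * res0 (gI j) := fun j => res0_of_chartI (hgI j)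
    have hres0 : ∀ j, res1 (g j) = X ^ m * res1 (gc 0 j) := fun j => res1_of_chart0 (hgc 0 j)
    -- the analysis of the new exceptional curve
    have han := fun hA => blow_analysisL f b H hb g a0 n0 a1 n1 hn0 hn1 inv.geom m hm gc gI hgc hgI S
      h0S hS hJ1 inv.hJ2 inv.hJ2' inv.hz0 inv.hz1 s0 hs0 hA
    have haz : a0 + a1 + m = 0 → n0 + n1 = 1 := by omega
    -- the invariants of the children
    have inv0 : InvL H f s0 (gc 0) (a0 + a1 + m) (n0 + n1) a1 n1 :=
      { geom := geom_chart0L H f g (gc 0) a0 n0 a1 n1 hn0 hn1 inv.geom m (hgc 0)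
        hn0 := by omega
        hn1 := hn1
        hz0 := haz
        hz1 := inv.hz1
        hJ1 := fun m' hm' => ⟨arith3 a0 n0 a1 n1 m m' hn0 hn1 (hmc 0 m' hm') hJ1.1 hJ1.2,
          (Nat.mul_le_mul_left _ (hmc 0 m' hm')).trans hJ1.2⟩
        hJ2 := fun _ => arith1 a0 n0 a1 n1 m hn0 hn1 hm inv.hz0 inv.hJ2
        hJ2' := fun ha1 => arith2 a0 n0 a1 n1 m hn0 hn1 ha1 hJ1.2 inv.hJ2'
        hH0 := by
          intro hA μ' hμ'
          obtain ⟨μ, μI, hμ, hμI, h2, h3, h4, h5⟩ := han hA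
          rwa [← (hμ 0).unique hμ']
        hH1 := by
          intro hA1 μ' hμ'
          have h2 := inv.hH1 hA1 (m + μ') (hμ'.shift hres0)
          intro h3
          apply h2
          push_cast at h3 ⊢
          linear_combination h3 - hA1 }
    have invc : ∀ c, c ≠ 0 → InvL H f s0 (gc c) (a0 + a1 + m) (n0 + n1) 0 1 := fun c hc0 =>
      { geom := geom_chartL H f g (gc c) a0 n0 a1 n1 hn0 hn1 inv.geom m c hc0 (hgc c)
        hn0 := by omega
        hn1 := le_rfl
        hz0 := haz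
        hz1 := fun _ => rfl
        hJ1 := fun m' hm' => ⟨arith3 a0 n0 a1 n1 m m' hn0 hn1 (hmc c m' hm') hJ1.1 hJ1.2,
          by simp⟩
        hJ2 := fun h => by rw [mul_zero, mul_one]; exact h
        hJ2' := fun h => absurd h (lt_irrefl 0)
        hH0 := by
          intro hA μ' hμ'
          obtain ⟨μ, μI, hμ, hμI, h2, h3, h4, h5⟩ := han hA
          have h6 := h4 c hc0
          rw [(hμ c).unique hμ'] at h6
          rw [zero_add]
          push_cast
          exact h6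
        hH1 := by
          intro hA1
          simp at hA1 }
    have invI : InvL H f s0 gI a0 n0 (a0 + a1 + m) (n0 + n1) :=
      { geom := geom_chartIL H f g gI a0 n0 a1 n1 hn0 hn1 inv.geom m hgI
        hn0 := hn0
        hn1 := by omega
        hz0 := inv.hz0
        hz1 := haz
        hJ1 := fun m' hm' => ⟨(Nat.mul_le_mul_left _ (hmI m' hm')).trans hJ1.1,
          arith3 a0 n0 a1 n1 m m' hn0 hn1 (hmI m' hm') hJ1.1 hJ1.2⟩
        hJ2 := fun ha0 => by
          have := arith2 a1 n1 a0 n0 m hn1 hn0 ha0 hJ1.1 inv.hJ2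
          rwa [add_comm a1 a0, add_comm n1 n0] at this
        hJ2' := fun _ => by
          have := arith1 a1 n1 a0 n0 m hn1 hn0 hm inv.hz1 inv.hJ2'
          rwa [add_comm a1 a0, add_comm n1 n0] at this
        hH0 := by
          intro hA0 μ' hμ'
          have h2 := inv.hH0 hA0 (m + μ') (hμ'.shift hresI)
          intro h3
          apply h2
          push_cast at h3 ⊢
          linear_combination h3 - hA0
        hH1 := by
          intro hA μ' hμ'
          obtain ⟨μ, μI, hμ, hμI, h2, h3, h4, h5⟩ := han hA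
          rwa [← hμI.unique hμ'] }
    obtain ⟨c00, c01, h00, h01, h02⟩ := ih0 inv0
    obtain ⟨cI0, cI1, hI0, hI1, hI2⟩ := ihI invI
    have hcc : ∀ c ∈ S.erase 0, ∃ κ : ℂ,
        (((n0 + n1 : ℕ) : ℂ) + ((a0 + a1 + m : ℕ) : ℂ) * s0 = 0 → ∀ μ, Ord0 (gc c) μ →
          κ * (1 + s0 * (μ : ℂ)) = 1) ∧
        Zc c - RatFunc.C κ * fac (a0 + a1 + m) (n0 + n1) ∈ Reg s0 := by
      intro c hcS
      rw [Finset.mem_erase] at hcS
      obtain ⟨κ, κ', h2, h3, h4⟩ := ihc c hcS.2 hcS.1 (invc c hcS.1)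
      refine ⟨κ, ?_, ?_⟩
      · intro hA μ hμ
        have h5 := h2 hA μ hμ
        rw [zero_add, Nat.cast_one] at h5
        exact h5
      · have h5 := (Reg s0).add_mem h4 (Reg_C s0 κ')
        rw [fac_zero_one, mul_one, sub_add_cancel] at h5
        exact h5
    choose! κ hκ1 hκ2 using hcc
    set facE := fac (a0 + a1 + m) (n0 + n1) with hfacE
    set β : ℂ := cI1 + c00 + ∑ c ∈ S.erase 0, κ c + 1 - S.card with hβ
    have hβE : RatFunc.C β * facE ∈ Reg s0 := by
      by_cases hA : ((n0 + n1 : ℕ) : ℂ) + ((a0 + a1 + m : ℕ) : ℂ) * s0 = 0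
      · obtain ⟨μ, μI, hμ, hμI, h2, h3, h4, h5⟩ := han hA
        have e2 := hI1 hA μI hμI
        have e3 := h00 hA (μ 0) (hμ 0)
        have e4 : ∀ c ∈ S.erase 0, κ c = 1 / (1 + s0 * (μ c : ℂ)) := by
          intro c hcS
          have h6 := hκ1 c hcS hA (μ c) (hμ c)
          rw [eq_div_iff (h4 c (Finset.mem_erase.1 hcS).1)]
          exact h6
        have h6 : β = 0 := by
          rw [hβ, Finset.sum_congr rfl e4, eq_div_of_mul_eq h3 e2, eq_div_of_mul_eq h2 e3]
          exact h5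
        rw [h6, map_zero, zero_mul]
        exact (Reg s0).zero_mem
      · exact (Reg s0).mul_mem (Reg_C s0 β) (fac_mem _ _ _ hA)
    refine ⟨cI0, c01, ?_, ?_, ?_⟩
    · intro hA0 μ hμ
      obtain ⟨ν, rfl, hν⟩ := hμ.unshift hresI
      have h2 := hI0 hA0 ν hν
      rw [← h2]
      congr 1
      push_cast
      linear_combination -hA0
    · intro hA1 μ hμ
      obtain ⟨ν, rfl, hν⟩ := hμ.unshift hres0
      have h2 := h01 hA1 ν hν
      rw [← h2]
      congr 1
      push_cast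
      linear_combination -hA1
    · have hsum : ∑ c ∈ S.erase 0, (Zc c - RatFunc.C (κ c) * facE) ∈ Reg s0 :=
        Subring.sum_mem _ fun c hcS => hκ2 c hcS
      rw [Finset.sum_sub_distrib, ← Finset.sum_mul, ← map_sum] at hsum
      have hfin := (Reg s0).add_mem ((Reg s0).add_mem ((Reg s0).add_mem h02 hI2) hsum) hβE
      have heq : ZI + ∑ c ∈ S, Zc c + (1 - (S.card : RatFunc ℂ)) * facE
            - RatFunc.C cI0 * fac a0 n0 - RatFunc.C c01 * fac a1 n1
          = Zc 0 - RatFunc.C c00 * facE - RatFunc.C c01 * fac a1 n1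
            + (ZI - RatFunc.C cI0 * fac a0 n0 - RatFunc.C cI1 * facE)
            + (∑ c ∈ S.erase 0, Zc c - RatFunc.C (∑ c ∈ S.erase 0, κ c) * facE)
            + RatFunc.C β * facE := by
        rw [← Finset.add_sum_erase S Zc h0S, hβ]
        simp only [map_sub, map_add, map_one, map_natCast]
        ring
      rw [heq]
      exact hfin

/-- **The poles of the contribution of the point `P`** are roots of `b`, if `b` satisfies a
functional equation near `P`. -/
theorem point_main (f : ι → MP) (b : ℂ[X]) (H : MP) (hb : IsLocEq H f b) (P : Fin 2 → ℂ)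
    (hH : MvPolynomial.eval P H ≠ 0) (Z : RatFunc ℂ)
    (hZ : LocalZeta (fun j => translate P (f j)) 0 1 0 1 Z) (s0 : ℂ)
    (hs0 : Z.denom.eval s0 = 0) : b.eval s0 = 0 := by
  by_contra hne
  apply Reg_denom s0 Z ?_ hs0
  have hjac : jac (fun i => MvPolynomial.X i + MvPolynomial.C (P i) : Fin 2 → MP) = 1 := by
    rw [jac, Matrix.det_fin_two]
    simp only [Matrix.of_apply, map_add, MvPolynomial.pderiv_C]
    rw [MvPolynomial.pderiv_X_self, MvPolynomial.pderiv_X_self,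
      MvPolynomial.pderiv_X_of_ne (by decide), MvPolynomial.pderiv_X_of_ne (by decide)]
    ring
  have hcc : ∀ q : MP, MvPolynomial.constantCoeff
      (MvPolynomial.aeval (fun i => MvPolynomial.X i + MvPolynomial.C (P i) : Fin 2 → MP) q)
      = MvPolynomial.eval P q := by
    intro q
    induction q using MvPolynomial.induction_on with
    | C a => rw [MvPolynomial.aeval_C, MvPolynomial.eval_C]; exact MvPolynomial.constantCoeff_C _ a
    | add p q hp hq => rw [map_add, map_add, hp, hq, map_add]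
    | mul_X p i hp => rw [map_mul, map_mul, hp, map_mul, MvPolynomial.aeval_X]; simp
  have hinv : InvL H f s0 (fun j => translate P (f j)) 0 1 0 1 :=
    { geom := ⟨fun i => MvPolynomial.X i + MvPolynomial.C (P i), 1, 1, by simp, by simp,
        fun j => by
          rw [pow_zero, pow_zero, mul_one, mul_one, one_mul]
          rfl, by
          rw [hjac, Nat.sub_self, pow_zero, pow_zero, mul_one, mul_one], by
          rw [hcc]; exact hH⟩
      hn0 := le_rfl
      hn1 := le_rfl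
      hz0 := fun _ => rfl
      hz1 := fun _ => rfl
      hJ1 := fun m _ => by simp
      hJ2 := fun h => absurd h (lt_irrefl 0)
      hJ2' := fun h => absurd h (lt_irrefl 0)
      hH0 := fun h => by simp at h
      hH1 := fun h => by simp at h }
  obtain ⟨c0, c1, _, _, h1⟩ := local_mainL f b H hb s0 hne hZ hinv
  rw [fac_zero_one, mul_one, mul_one] at h1
  have h2 := (Reg s0).add_mem ((Reg s0).add_mem h1 (Reg_C s0 c1)) (Reg_C s0 c0)
  rw [sub_add_cancel, sub_add_cancel] at h2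
  exact h2

end Pool.Agent.W574.LM
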