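import Pool.Agent.W574.SM.Tw

set_option autoImplicit false
set_option linter.unusedSectionVars false
set_option linter.unusedVariables false

/-! # The engine for local functional equations -/

namespace Pool.Agent.W574.LM

open MvPolynomial Pool.Agent.W574.SM

/-- A functional equation with the factor `H` on the left hand side:
`H b(∑ s_j) ∏ f_j ^ s_j = ∑_c P_c ∏_{c_j < 0} binom(s_j, -c_j) ∏ f_j ^ (s_j + c_j)`.
Near a point at which `H` does not vanish, this is a functional equation whose operators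
`H⁻¹ P_c` are differential operators with coefficients in the local ring. -/
def IsLocEq {σ ι : Type} [Fintype ι] (H : MvPolynomial σ ℂ) (f : ι → MvPolynomial σ ℂ)
    (b : Polynomial ℂ) : Prop :=
  ∃ (S : Finset (ι → ℤ)) (P : (ι → ℤ) → ((ι →₀ ℕ) →₀ weyl σ)),
    (∀ c ∈ S, ∑ j, c j = 1) ∧
    ∀ s : ι → ℕ,
      H * (C (b.eval ((∑ j, s j : ℕ) : ℂ)) * ∏ j, f j ^ s j) =
        ∑ c ∈ S, applyAt (P c) s
          (C ((∏ j, (if c j < 0 then (s j).choose (-c j).toNat else 1) : ℕ) : ℂ) *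
            ∏ j, f j ^ ((s j : ℤ) + c j).toNat)

section Lift

variable {σ ι κ L : Type} [Fintype σ] [DecidableEq σ] [Fintype ι] [DecidableEq ι] [Fintype κ]
  [DecidableEq κ] [Field L] [Algebra ℂ L]
  (φ : MvPolynomial σ ℂ →ₐ[ℂ] L) (θ : σ → Derivation ℂ L L) (f : ι → MvPolynomial σ ℂ)
  (lam : κ → ι → ℂ) (e : κ → ℂ) (G : κ → L) (H0 : L)

/-- **The engine.** -/
theorem engineL [CharZero L] (F : Filt L) (a ν h : ℤ) (hJ : (Jac φ θ).det ≠ 0)
    (hJν : (Jac φ θ).det ∈ F.ge ν)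
    (hcomm : ∀ s t u, θ s (θ t u) = θ t (θ s u)) (T0 : L →ₗ[ℂ] ℂ) (hT0 : ∀ t u, T0 (θ t u) = 0)
    (hT1 : ∀ u ∈ F.ge 1, T0 u = 0)
    (hf : ∀ j, φ (f j) ∈ F.ge a)
    (hGf : ∀ m, G m = ∑ j, algebraMap ℂ L (lam m j) * φ (f j))
    (hG : ∀ m, G m ≠ 0) (hGa : ∀ m, (G m)⁻¹ ∈ F.ge (-a))
    (hH : ∀ t, θ t H0 = H0 * ∑ m, algebraMap ℂ L (e m) * (θ t (G m) * (G m)⁻¹))
    (hH0 : H0 ∈ F.ge h) (hpos : 0 < ν + h + a)
    (S : Subalgebra ℂ L) (hS1 : ∀ p, φ p ∈ S) (hS2 : ∀ i, ∀ u ∈ S, DD φ θ i u ∈ S)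
    (hS3 : ∀ u ∈ S, u ∈ F.ge 0) (b : Polynomial ℂ) (H : MvPolynomial σ ℂ)
    (hb : IsLocEq H f b) (ρ : L) (hρ : ρ ∈ S) :
    b.eval (∑ m, e m) * T0 ((Jac φ θ).det * (ρ * φ H * H0)) = 0 := by
  classical
  obtain ⟨Sc, P, hc, heq⟩ := hb
  obtain ⟨bh, hbh1, hbh2⟩ := exists_bhat φ f lam e G H0 hGf hG b
  choose Th hTh1 hTh2 using fun β => exists_thetaPow φ f F a hf β
  have hlift := fun (Q : weyl σ) => lift_weyl φ θ f lam e G H0 hJ hcomm T0 hT0 hGf hG hH S hS1 hS2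
    Q.1 Q.2
  choose Qh hQ1 hQ2 using hlift
  have key : C H * bh = ∑ c ∈ Sc, ∑ β ∈ (P c).support, Qh (P c β) (Th β (qc f c)) := by
    rw [← sub_eq_zero]
    apply eq_zero_of_ip_E f
    intro s
    rw [map_sub, ip_C_mul, hbh1, heq s, sub_eq_zero, map_sum]
    refine Finset.sum_congr rfl fun c _ => ?_
    rw [map_sum, applyAt, Finsupp.sum]
    refine Finset.sum_congr rfl fun β _ => ?_
    rw [← hQ1, hTh1, ip_qc, map_smul]
  have h1 : φ H * (algebraMap ℂ L (b.eval (∑ m, e m)) * H0)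
      = ∑ c ∈ Sc, ∑ β ∈ (P c).support,
        pairL φ lam e G H0 (Qh (P c β) (Th β (qc f c))) := by
    rw [← hbh2, ← pairL_C_mul, key, pairL_sum]
    refine Finset.sum_congr rfl fun c _ => ?_
    rw [pairL_sum]
  have h2 : T0 ((Jac φ θ).det * (ρ * (φ H * (algebraMap ℂ L (b.eval (∑ m, e m)) * H0)))) = 0 := by
    rw [h1, Finset.mul_sum, Finset.mul_sum, map_sum]
    refine Finset.sum_eq_zero fun c hcS => ?_
    rw [Finset.mul_sum, Finset.mul_sum, map_sum]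
    refine Finset.sum_eq_zero fun β _ => ?_
    obtain ⟨ρ', hρ', h3⟩ := hQ2 (P c β) ρ hρ
    rw [h3]
    apply hT1
    have h4 : WM F a φ a (Th β (qc f c)) := hTh2 β a _ (qc_WM φ f F a hf c (hc c hcS))
    have h5 : pairL φ lam e G H0 (Th β (qc f c)) ∈ F.ge (h + a) :=
      F.mul hH0 (Lam_mem F a e G hGa (SS_WK F a φ lam h4))
    have h6 := F.mul hJν (F.mul (hS3 ρ' hρ') h5)
    exact F.mono (by omega) h6
  have h3 : (Jac φ θ).det * (ρ * (φ H * (algebraMap ℂ L (b.eval (∑ m, e m)) * H0)))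
      = (b.eval (∑ m, e m)) • ((Jac φ θ).det * (ρ * φ H * H0)) := by
    rw [Algebra.smul_def]; ring
  rw [h3, map_smul, smul_eq_mul] at h2
  exact h2

/-- **The twisted engine.** -/
theorem engine_twL [CharZero L] (F : Filt L) (a ν : ℤ) (ha : 0 < a) (hJ : (Jac φ θ).det ≠ 0)
    (hJν : (Jac φ θ).det ∈ F.ge ν)
    (hcomm : ∀ s t u, θ s (θ t u) = θ t (θ s u)) (T : L →ₗ[ℂ] ℂ)
    (hT : ∀ t u, T (θ t u + Om θ e G t * u) = 0)
    (hT1 : ∀ u ∈ F.ge (ν + 1), T u = 0)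
    (hf : ∀ j, φ (f j) ∈ F.ge a)
    (hGf : ∀ m, G m = ∑ j, algebraMap ℂ L (lam m j) * φ (f j))
    (hG : ∀ m, G m ≠ 0) (hGa : ∀ m, (G m)⁻¹ ∈ F.ge (-a))
    (S : Subalgebra ℂ L) (hS1 : ∀ p, φ p ∈ S) (hS2 : ∀ i, ∀ u ∈ S, DD φ θ i u ∈ S)
    (hS3 : ∀ u ∈ S, u ∈ F.ge 0) (b : Polynomial ℂ) (H : MvPolynomial σ ℂ)
    (hb : IsLocEq H f b) (ρ : L) (hρ : ρ ∈ S) :
    b.eval (∑ m, e m) * T ((Jac φ θ).det * (ρ * φ H)) = 0 := by
  classical
  obtain ⟨Sc, P, hc, heq⟩ := hb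
  obtain ⟨bh, hbh1, hbh2⟩ := exists_bhat φ f lam e G 1 hGf hG b
  choose Th hTh1 hTh2 using fun β => exists_thetaPow φ f F a hf β
  have hlift := fun (Q : weyl σ) => lift_weyl_tw φ θ f lam e G hJ hcomm T hT hGf hG S hS1 hS2
    Q.1 Q.2
  choose Qh hQ1 hQ2 using hlift
  have key : C H * bh = ∑ c ∈ Sc, ∑ β ∈ (P c).support, Qh (P c β) (Th β (qc f c)) := by
    rw [← sub_eq_zero]
    apply eq_zero_of_ip_E f
    intro s
    rw [map_sub, ip_C_mul, hbh1, heq s, sub_eq_zero, map_sum]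
    refine Finset.sum_congr rfl fun c _ => ?_
    rw [map_sum, applyAt, Finsupp.sum]
    refine Finset.sum_congr rfl fun β _ => ?_
    rw [← hQ1, hTh1, ip_qc, map_smul]
  have h1 : φ H * (algebraMap ℂ L (b.eval (∑ m, e m)) * 1)
      = ∑ c ∈ Sc, ∑ β ∈ (P c).support,
        pairL φ lam e G 1 (Qh (P c β) (Th β (qc f c))) := by
    rw [← hbh2, ← pairL_C_mul, key, pairL_sum]
    refine Finset.sum_congr rfl fun c _ => ?_
    rw [pairL_sum]
  have h2 : T ((Jac φ θ).det * (ρ * (φ H * (algebraMap ℂ L (b.eval (∑ m, e m)) * 1)))) = 0 := by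
    rw [h1, Finset.mul_sum, Finset.mul_sum, map_sum]
    refine Finset.sum_eq_zero fun c hcS => ?_
    rw [Finset.mul_sum, Finset.mul_sum, map_sum]
    refine Finset.sum_eq_zero fun β _ => ?_
    obtain ⟨ρ', hρ', h3⟩ := hQ2 (P c β) ρ hρ
    rw [h3]
    apply hT1
    have h4 : WM F a φ a (Th β (qc f c)) := hTh2 β a _ (qc_WM φ f F a hf c (hc c hcS))
    have h5 : pairL φ lam e G 1 (Th β (qc f c)) ∈ F.ge a := by
      rw [pairL, one_mul]
      exact Lam_mem F a e G hGa (SS_WK F a φ lam h4)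
    have h6 := F.mul hJν (F.mul (hS3 ρ' hρ') h5)
    exact F.mono (by omega) h6
  have h3 : (Jac φ θ).det * (ρ * (φ H * (algebraMap ℂ L (b.eval (∑ m, e m)) * 1)))
      = (b.eval (∑ m, e m)) • ((Jac φ θ).det * (ρ * φ H)) := by
    rw [Algebra.smul_def]; ring
  rw [h3, map_smul, smul_eq_mul] at h2
  exact h2

end Lift

end Pool.Agent.W574.LM
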