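import Pool.Agent.W574.LM.Eng
import Pool.Agent.W574.SM.Chain

set_option autoImplicit false
set_option linter.unusedSectionVars false
set_option linter.unusedVariables false

/-! # Roots from Rees divisors, local functional equations -/

namespace Pool.Agent.W574.LM

open Pool.Agent.W574.SM

theorem inv_pow_ne {L : Type} [Field L] {x : L} (hx : x ≠ 0) (n : ℕ) : (x ^ n)⁻¹ ≠ 0 :=
  inv_ne_zero (pow_ne_zero n hx)

section Root

open MvPowerSeries HahnSeries

variable {σ ι : Type} [Fintype σ] [LinearOrder σ] [Fintype ι] [DecidableEq ι]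

/-- **Roots from Rees divisors.** -/
theorem rees_coreL (f : ι → MvPolynomial σ ℂ) (b : Polynomial ℂ) (H : MvPolynomial σ ℂ)
    (hb : IsLocEq H f b)
    (z : σ) (ξ : σ → MvPowerSeries σ ℂ) (hHc : constantCoeff (MvPolynomial.aeval ξ H) ≠ 0) (k a l : ℕ) (hl : l < a) (U0 U1 U2 : MvPowerSeries σ ℂ)
    (hU0 : constantCoeff U0 ≠ 0) (hU1 : constantCoeff U1 ≠ 0) (hU2 : constantCoeff U2 ≠ 0)
    (hJ : (Matrix.of fun t i => pderiv ℂ t (ξ i)).det = X z ^ k * U0)
    (j0 : ι) (hf : ∀ j, X z ^ a ∣ MvPolynomial.aeval ξ (f j))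
    (hj0 : MvPolynomial.aeval ξ (f j0) = X z ^ a * U1)
    (p : MvPolynomial σ ℂ) (hp : MvPolynomial.aeval ξ p = X z ^ l * U2)
    (A B : Type) [Fintype A] [Fintype B] [DecidableEq B] (τA : A → σ) (τB : B → σ)
    (hAz : ∀ t, τA t ≠ z) (hBz : ∀ t, τB t ≠ z)
    (hsum : ∑ t, gam z (Finsupp.single t 1)
      = gam z (Finsupp.single z 1) + (∑ t : A, gam z (Finsupp.single (τA t) 1) +
        ∑ t : B, gam z (Finsupp.single (τB t) 1)))
    (q : A → MvPolynomial σ ℂ) (hq : ∀ t, IsCoord z (τA t) (MvPolynomial.aeval ξ (q t)))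
    (c : B → ι → ℂ) (w : B → MvPowerSeries σ ℂ) (hw : ∀ t, IsCoord z (τB t) (w t))
    (hcw : ∀ t, ∑ j, c t j • MvPolynomial.aeval ξ (f j) = MvPolynomial.aeval ξ (f j0) * w t) :
    b.eval (-((k : ℂ) + 1 + l) / a) = 0 := by
  classical
  have ha0 : a ≠ 0 := by omega
  set L := HahnSeries (Gam σ) ℂ with hL
  set φ : MvPolynomial σ ℂ →ₐ[ℂ] L := (em z).comp (MvPolynomial.aeval ξ) with hφ
  have hφa : ∀ q, φ q = em z (MvPolynomial.aeval ξ q) := fun q => rfl
  set θ : σ → Derivation ℂ L L := fun t => eul (chi t) with hθ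
  -- the Jacobian
  have hJac : (Jac φ θ).det = em z ((∏ t, X t) * (X z ^ k * U0)) := by
    rw [← hJ, ← Matrix.det_mul_column]
    have h1 : Jac φ θ = (em z : MvPowerSeries σ ℂ →+* L).mapMatrix
        (Matrix.of fun t i => X t * pderiv ℂ t (ξ i)) := by
      ext1 t i
      rw [Jac, Matrix.of_apply, hφa, MvPolynomial.aeval_X]
      exact eul_emb (gam z) (gam_injective z) (gam_monotone z) (chi t) t (chi_gam z t) (ξ i)
    rw [h1, ← RingHom.map_det]
    rfl
  have hJ0 : (Jac φ θ).det ≠ 0 := by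
    rw [hJac]
    exact em_ne_zero z _ (mul_ne_zero (Finset.prod_ne_zero_iff.2 fun t _ => X_ne_zero' t)
      (mul_ne_zero (pow_ne_zero _ (X_ne_zero' z)) (unit_ne_zero _ hU0)))
  have hemX : ∀ t, em z (X t) ≠ 0 := fun t => em_ne_zero z _ (X_ne_zero' t)
  have hJo : (Jac φ θ).det.order
      = ∑ t, gam z (Finsupp.single t 1) + k • gam z (Finsupp.single z 1) := by
    rw [hJac, map_mul, map_mul, map_prod, map_pow,
      order_mul (Finset.prod_ne_zero_iff.2 fun t _ => hemX t)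
        (mul_ne_zero (pow_ne_zero _ (hemX z)) (em_ne_zero z _ (unit_ne_zero _ hU0))),
      order_mul (pow_ne_zero _ (hemX z)) (em_ne_zero z _ (unit_ne_zero _ hU0)),
      order_prod _ _ fun t _ => hemX t, order_pow, order_em_unit z U0 hU0, add_zero]
    simp only [order_em_X]
  -- the forms `G`
  set κ := Option B with hκ
  set lam : κ → ι → ℂ := fun m => m.elim (Pi.single j0 1) c with hlam
  set G : κ → L := fun m => ∑ j, algebraMap ℂ L (lam m j) * φ (f j) with hGdef
  have hGnone : G none = em z (X z) ^ a * em z U1 := by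
    have h1 : G none = φ (f j0) := by
      rw [hGdef]
      simp only [hlam, Option.elim_none]
      rw [Finset.sum_eq_single j0]
      · rw [Pi.single_eq_same, map_one, one_mul]
      · intro j _ hj
        rw [Pi.single_eq_of_ne hj, map_zero, zero_mul]
      · intro h; exact absurd (Finset.mem_univ j0) h
    rw [h1, hφa, hj0, map_mul, map_pow]
  have hGsome : ∀ t : B, G (some t) = G none * em z (w t) := by
    intro t
    have h1 : G (some t) = em z (∑ j, c t j • MvPolynomial.aeval ξ (f j)) := by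
      rw [map_sum, hGdef]
      refine Finset.sum_congr rfl fun j _ => ?_
      rw [map_smul]
      exact (Algebra.smul_def (c t j) (em z _)).symm
    rw [h1, hcw, map_mul, hj0, map_mul, map_pow, hGnone]
  have hU1' : em z U1 ≠ 0 := em_ne_zero z _ (unit_ne_zero _ hU1)
  have hw' : ∀ t : B, em z (w t) ≠ 0 := fun t => em_ne_zero z _ (coord_ne_zero z _ _ (hw t))
  have hGn0 : G none ≠ 0 := by
    rw [hGnone]
    exact mul_ne_zero (pow_ne_zero _ (hemX z)) hU1'
  have hG : ∀ m, G m ≠ 0 := by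
    intro m
    rcases m with _ | t
    · exact hGn0
    · rw [hGsome]; exact mul_ne_zero hGn0 (hw' t)
  have hGno : (G none).order = a • gam z (Finsupp.single z 1) := by
    rw [hGnone, order_mul (pow_ne_zero _ (hemX z)) hU1', order_pow, order_em_X,
      order_em_unit z U1 hU1, add_zero]
  have hGso : ∀ t : B, (G (some t)).order
      = a • gam z (Finsupp.single z 1) + gam z (Finsupp.single (τB t) 1) := by
    intro t
    rw [hGsome, order_mul hGn0 (hw' t), hGno, order_em_coord z _ (hBz t) (w t) (hw t)]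
  have hz1 : pr1 (gam z (Finsupp.single z 1)) = 1 := by
    rw [pr1_gam, Finsupp.single_eq_same]; rfl
  have hGa : ∀ m, (G m)⁻¹ ∈ (filt (pr1 : Gam σ →+ ℤ)).ge (-(a : ℤ)) := by
    intro m
    have h1 := mem_filt_of_order pr1 pr1_monotone (G m)⁻¹
    rw [order_inv' _ (hG m), map_neg] at h1
    rcases m with _ | t
    · rw [hGno, map_nsmul, hz1] at h1
      simpa using h1
    · rw [hGso, map_add, pr1_gam z (Finsupp.single (τB t) 1),
        Finsupp.single_eq_of_ne (hBz t).symm, map_nsmul, hz1] at h1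
      simpa using h1
  -- the root
  obtain ⟨r, hr0, hro, hra⟩ := exists_root (em z U1) hU1' (order_em_unit z U1 hU1) a ha0
  set R : L := em z (X z) * r with hR
  have hR0 : R ≠ 0 := mul_ne_zero (hemX z) hr0
  have hRa : R ^ a = G none := by rw [hR, mul_pow, hra, hGnone]
  have hRo : R.order = gam z (Finsupp.single z 1) := by
    rw [hR, order_mul (hemX z) hr0, hro, order_em_X, add_zero]
  set N : ℤ := a * Fintype.card B - (k + 1 + l) with hN
  set H0 : L := R ^ N * ∏ t : B, (G (some t))⁻¹ with hH0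
  set e : κ → ℂ := fun m => m.elim ((N : ℂ) / a) (fun _ => -1) with he
  have hac : (a : ℂ) ≠ 0 := Nat.cast_ne_zero.2 ha0
  have hesum : ∑ m, e m = -((k : ℂ) + 1 + l) / a := by
    rw [Fintype.sum_option]
    simp only [he, Option.elim_none, Option.elim_some]
    rw [Finset.sum_const, Finset.card_univ, hN]
    push_cast
    field_simp
    rw [nsmul_eq_mul]
    ring
  have hH : ∀ t, θ t H0 = H0 * ∑ m, algebraMap ℂ L (e m) * (θ t (G m) * (G m)⁻¹) := by
    intro t
    have hP0 : ∏ t : B, (G (some t))⁻¹ ≠ 0 := Finset.prod_ne_zero_iff.2 fun t _ =>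
      inv_ne_zero (hG _)
    have hRN : R ^ N ≠ 0 := zpow_ne_zero N hR0
    apply eq_of_dlog (θ t) (mul_ne_zero hRN hP0)
    rw [dlog_mul (θ t) hRN hP0, dlog_zpow (θ t) hR0, dlog_prod (θ t) _ _ fun t _ =>
      inv_ne_zero (hG _), Fintype.sum_option]
    have h1 : (a : L) * (θ t R * R⁻¹) = θ t (G none) * (G none)⁻¹ := by
      rw [← hRa, dlog_pow (θ t) hR0]
    have haL : (a : L) ≠ 0 := Nat.cast_ne_zero.2 ha0
    congr 1
    · simp only [he, Option.elim_none]
      rw [← h1, map_div₀, map_intCast, map_natCast, ← mul_assoc ((N : L) / a),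
        div_mul_cancel₀ _ haL]
    · refine Finset.sum_congr rfl fun s _ => ?_
      rw [dlog_inv (θ t) (hG _)]
      simp only [he, Option.elim_some, map_neg, map_one]
      ring
  have hH00 : H0 ≠ 0 := mul_ne_zero (zpow_ne_zero N hR0) (Finset.prod_ne_zero_iff.2 fun t _ =>
      inv_ne_zero (hG _))
  have hRNo : ∀ n : ℤ, (R ^ n).order = n • gam z (Finsupp.single z 1) := by
    intro n
    rcases n with n | n
    · rw [Int.ofNat_eq_natCast, zpow_natCast, order_pow, hRo, natCast_zsmul]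
    · rw [zpow_negSucc, order_inv' _ (pow_ne_zero _ hR0), order_pow, hRo, negSucc_zsmul]
  have hH0o : H0.order = N • gam z (Finsupp.single z 1) - ∑ t : B,
      (a • gam z (Finsupp.single z 1) + gam z (Finsupp.single (τB t) 1)) := by
    rw [hH0, order_mul (zpow_ne_zero N hR0) (Finset.prod_ne_zero_iff.2 fun t _ =>
      inv_ne_zero (hG _)), hRNo, order_prod _ _ fun t _ => inv_ne_zero (hG _), sub_eq_add_neg,
      ← Finset.sum_neg_distrib]
    congr 1
    refine Finset.sum_congr rfl fun t _ => ?_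
    rw [order_inv' _ (hG _), hGso]
  -- the denominators
  have hφH : φ H ≠ 0 := em_ne_zero z _ (unit_ne_zero _ hHc)
  have hφHo : (φ H).order = 0 := order_em_unit z _ hHc
  obtain ⟨q0, hq0⟩ : ∃ q0 : MvPolynomial σ ℂ, q0 = (∏ t : A, q t) * H := ⟨_, rfl⟩
  have hφq : ∀ t : A, φ (q t) ≠ 0 := fun t => em_ne_zero z _ (coord_ne_zero z _ _ (hq t))
  have hφqo : ∀ t : A, (φ (q t)).order = gam z (Finsupp.single (τA t) 1) := fun t =>
    order_em_coord z _ (hAz t) _ (hq t)
  have hq00 : φ q0 ≠ 0 := by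
    rw [hq0, map_mul, map_prod]
    exact mul_ne_zero (Finset.prod_ne_zero_iff.2 fun t _ => hφq t) hφH
  have hq0o : (φ q0).order = ∑ t : A, gam z (Finsupp.single (τA t) 1) := by
    rw [hq0, map_mul, map_prod, order_mul (Finset.prod_ne_zero_iff.2 fun t _ => hφq t) hφH,
      order_prod _ _ fun t _ => hφq t, hφHo, add_zero]
    exact Finset.sum_congr rfl fun t _ => hφqo t
  have hS3 : ∀ u ∈ frac φ q0 hq00, u ∈ (filt (pr1 : Gam σ →+ ℤ)).ge 0 := by
    rintro u ⟨p, n, rfl⟩
    have h1 : φ p ∈ (filt (pr1 : Gam σ →+ ℤ)).ge 0 := em_mem_ge z _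
    have h2 : ((φ q0) ^ n)⁻¹ ∈ (filt (pr1 : Gam σ →+ ℤ)).ge 0 := by
      have h3 := mem_filt_of_order pr1 pr1_monotone ((φ q0) ^ n)⁻¹
      rw [order_inv' _ (pow_ne_zero _ hq00), order_pow, hq0o, map_neg, map_nsmul, map_sum] at h3
      have h4 : ∑ t : A, pr1 (gam z (Finsupp.single (τA t) 1)) = 0 := by
        refine Finset.sum_eq_zero fun t _ => ?_
        rw [pr1_gam, Finsupp.single_eq_of_ne (hAz t).symm]
        rfl
      rw [h4] at h3
      simpa using h3
    have := (filt (pr1 : Gam σ →+ ℤ)).mul h1 h2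
    simpa using this
  set ρ : L := φ p * ((φ q0) ^ 1)⁻¹ with hρ
  have hρS : ρ ∈ frac φ q0 hq00 := ⟨p, 1, rfl⟩
  have hφp : φ p = em z (X z) ^ l * em z U2 := by rw [hφa, hp, map_mul, map_pow]
  have hU2' : em z U2 ≠ 0 := em_ne_zero z _ (unit_ne_zero _ hU2)
  have hφp0 : φ p ≠ 0 := by
    rw [hφp]; exact mul_ne_zero (pow_ne_zero _ (hemX z)) hU2'
  have hq0i : ((φ q0) ^ 1)⁻¹ ≠ 0 := inv_pow_ne hq00 1
  have hρ0 : ρ ≠ 0 := mul_ne_zero hφp0 hq0i
  have hρo : ρ.order = l • gam z (Finsupp.single z 1)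
      - ∑ t : A, gam z (Finsupp.single (τA t) 1) := by
    rw [hρ, order_mul hφp0 hq0i, pow_one, order_inv' _ hq00, hq0o,
      hφp, order_mul (pow_ne_zero _ (hemX z)) hU2', order_pow, order_em_X, order_em_unit z U2 hU2,
      add_zero, sub_eq_add_neg]
  have hρH0 : ρ * φ H ≠ 0 := mul_ne_zero hρ0 hφH
  have hρHo : (ρ * φ H).order = l • gam z (Finsupp.single z 1)
      - ∑ t : A, gam z (Finsupp.single (τA t) 1) := by
    rw [order_mul hρ0 hφH, hφHo, add_zero, hρo]
  -- the filtration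
  have hJν : (Jac φ θ).det ∈ (filt (pr1 : Gam σ →+ ℤ)).ge (pr1 (Jac φ θ).det.order) :=
    mem_filt_of_order pr1 pr1_monotone _
  have hH0h : H0 ∈ (filt (pr1 : Gam σ →+ ℤ)).ge (pr1 H0.order) :=
    mem_filt_of_order pr1 pr1_monotone _
  have hfa : ∀ j, φ (f j) ∈ (filt (pr1 : Gam σ →+ ℤ)).ge a := fun j => em_dvd_mem_ge z a _ (hf j)
  have hA0 : ∑ t : A, pr1 (gam z (Finsupp.single (τA t) 1)) = 0 := by
    refine Finset.sum_eq_zero fun t _ => ?_
    rw [pr1_gam, Finsupp.single_eq_of_ne (hAz t).symm]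
    rfl
  have hB0 : ∀ t : B, pr1 (gam z (Finsupp.single (τB t) 1)) = 0 := by
    intro t
    rw [pr1_gam, Finsupp.single_eq_of_ne (hBz t).symm]
    rfl
  have hpos : 0 < pr1 (Jac φ θ).det.order + pr1 H0.order + (a : ℤ) := by
    rw [hJo, hsum, hH0o]
    simp only [map_add, map_sub, map_sum, map_nsmul, map_zsmul, hz1, hA0, hB0, Finset.sum_const,
      Finset.card_univ, add_zero]
    simp only [nsmul_eq_mul, smul_eq_mul, mul_one, mul_zero]
    rw [hN, mul_comm (a : ℤ) (Fintype.card B : ℤ)]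
    push_cast
    linarith [(Nat.cast_lt (α := ℤ)).2 hl]
  have hkey := engineL φ θ f lam e G H0 (filt (pr1 : Gam σ →+ ℤ)) a (pr1 (Jac φ θ).det.order)
    (pr1 H0.order) hJ0 hJν (fun s t u => eul_comm _ _ u) (T00 (Gam σ)) (fun t u => T00_eul _ u)
    (fun u hu => T00_filt pr1 u hu) hfa (fun m => rfl) hG hGa hH hH0h hpos (frac φ q0 hq00)
    (frac_phi φ q0 hq00) (fun i u hu => frac_DD φ θ hJ0 q0 hq00 i u hu) hS3 b H hb ρ hρS
  rw [hesum] at hkey
  have hT : T00 (Gam σ) ((Jac φ θ).det * (ρ * φ H * H0)) ≠ 0 := by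
    apply T00_ne_zero _ (mul_ne_zero hJ0 (mul_ne_zero hρH0 hH00))
    rw [order_mul hJ0 (mul_ne_zero hρH0 hH00), order_mul hρH0 hH00, hJo, hsum, hH0o, hρHo,
      Finset.sum_add_distrib, Finset.sum_const, Finset.card_univ, hN, sub_zsmul, add_zsmul,
      add_zsmul, one_zsmul, mul_zsmul]
    simp only [zsmul_nat]
    rw [zsmul_comm (gam z (Finsupp.single z 1)) (a : ℤ) (Fintype.card B : ℤ)]
    abel
  exact (mul_eq_zero.1 hkey).resolve_right hT

/-- **Roots from Rees divisors.** -/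
theorem rees_rootL (f : ι → MvPolynomial σ ℂ) (b : Polynomial ℂ) (H : MvPolynomial σ ℂ)
    (hb : IsLocEq H f b)
    (z : σ) (ξ : σ → MvPowerSeries σ ℂ) (hHc : constantCoeff (MvPolynomial.aeval ξ H) ≠ 0) (k a l : ℕ) (hl : l < a) (U0 U1 U2 : MvPowerSeries σ ℂ)
    (hU0 : constantCoeff U0 ≠ 0) (hU1 : constantCoeff U1 ≠ 0) (hU2 : constantCoeff U2 ≠ 0)
    (hJ : (Matrix.of fun t i => pderiv ℂ t (ξ i)).det = X z ^ k * U0)
    (j0 : ι) (hf : ∀ j, X z ^ a ∣ MvPolynomial.aeval ξ (f j))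
    (hj0 : MvPolynomial.aeval ξ (f j0) = X z ^ a * U1)
    (p : MvPolynomial σ ℂ) (hp : MvPolynomial.aeval ξ p = X z ^ l * U2)
    (hcoord : ∀ t, t ≠ z → (∃ q : MvPolynomial σ ℂ, IsCoord z t (MvPolynomial.aeval ξ q)) ∨
      ∃ (c : ι → ℂ) (w : MvPowerSeries σ ℂ), IsCoord z t w ∧
        ∑ j, c j • MvPolynomial.aeval ξ (f j) = MvPolynomial.aeval ξ (f j0) * w) :
    b.eval (-((k : ℂ) + 1 + l) / a) = 0 := by
  classical
  set P : σ → Prop := fun t => ∃ q : MvPolynomial σ ℂ, IsCoord z t (MvPolynomial.aeval ξ q) with hP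
  choose q hq using fun t : {t : σ // t ≠ z ∧ P t} => t.2.2
  choose c w hw hcw using fun t : {t : σ // t ≠ z ∧ ¬ P t} => (hcoord t t.2.1).resolve_left t.2.2
  exact rees_coreL f b H hb z ξ hHc k a l hl U0 U1 U2 hU0 hU1 hU2 hJ j0 hf hj0 p hp
    {t : σ // t ≠ z ∧ P t} {t : σ // t ≠ z ∧ ¬ P t} (fun t => t) (fun t => t)
    (fun t => t.2.1) (fun t => t.2.1) (sum_split z P _) q hq c w hw hcw

end Root

section Coordinates

open MvPowerSeries

variable {σ ι : Type} [Fintype σ] [LinearOrder σ] [Fintype ι] [DecidableEq ι]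

/-- **Roots from Rees divisors**, in arbitrary formal coordinates. -/
theorem rees_coordsL (f : ι → MvPolynomial σ ℂ) (b : Polynomial ℂ) (H : MvPolynomial σ ℂ)
    (hb : IsLocEq H f b)
    (z : σ) (ξ : σ → MvPowerSeries σ ℂ) (hHc : constantCoeff (MvPolynomial.aeval ξ H) ≠ 0) (k a l : ℕ) (hl : l < a) (U0 U1 U2 : MvPowerSeries σ ℂ)
    (hU0 : constantCoeff U0 ≠ 0) (hU1 : constantCoeff U1 ≠ 0) (hU2 : constantCoeff U2 ≠ 0)
    (hJ : (Matrix.of fun t i => pderiv ℂ t (ξ i)).det = X z ^ k * U0)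
    (j0 : ι) (hf : ∀ j, X z ^ a ∣ MvPolynomial.aeval ξ (f j))
    (hj0 : MvPolynomial.aeval ξ (f j0) = X z ^ a * U1)
    (p : MvPolynomial σ ℂ) (hp : MvPolynomial.aeval ξ p = X z ^ l * U2)
    (w : σ → MvPowerSeries σ ℂ) (hwz : w z = X z) (hw0 : ∀ t, constantCoeff (w t) = 0)
    (hwdet : (Matrix.of fun s t => constantCoeff (pderiv ℂ s (w t))).det ≠ 0)
    (htype : ∀ t, t ≠ z → (∃ q : MvPolynomial σ ℂ, MvPolynomial.aeval ξ q = w t) ∨
      ∃ c : ι → ℂ, ∑ j, c j • MvPolynomial.aeval ξ (f j) = MvPolynomial.aeval ξ (f j0) * w t) :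
    b.eval (-((k : ℂ) + 1 + l) / a) = 0 := by
  set W : Matrix σ σ ℂ := Matrix.of fun s t => constantCoeff (pderiv ℂ s (w t)) with hW
  have hWW : W⁻¹ * W = 1 := Matrix.nonsing_inv_mul _ (isUnit_iff_ne_zero.2 hwdet)
  set A : σ → MvPowerSeries σ ℂ := fun s => ∑ r, (W⁻¹ r s) • X r with hA
  have hA0 : ∀ s, constantCoeff (A s) = 0 := by
    intro s
    rw [hA]
    simp
  have hAs : HasSubst A := hasSubst_of_constantCoeff_zero hA0
  have hAd : ∀ t s, pderiv ℂ t (A s) = C (W⁻¹ t s) := by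
    intro t s
    rw [hA, map_sum, Finset.sum_eq_single t]
    · rw [Derivation.map_smul, pderiv_X_self, smul_eq_C_mul, mul_one]
    · intro r _ hr
      rw [Derivation.map_smul, pderiv_X_of_ne hr, smul_zero]
    · intro h; exact absurd (Finset.mem_univ t) h
  have hWz : ∀ s, W s z = if s = z then 1 else 0 := by
    intro s
    rw [hW, Matrix.of_apply, hwz]
    by_cases h : s = z
    · rw [if_pos h, h, pderiv_X_self, map_one]
    · rw [if_neg h, pderiv_X_of_ne (Ne.symm h), map_zero]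
  have hWiz : ∀ r, W⁻¹ r z = if r = z then 1 else 0 := by
    intro r
    have h1 := congrFun (congrFun hWW r) z
    rw [Matrix.mul_apply, Matrix.one_apply] at h1
    rw [← h1]
    simp only [hWz]
    simp
  have hAz : A z = X z := by
    rw [hA]
    simp only [hWiz]
    simp
  have hsub : ∀ q : MvPolynomial σ ℂ, MvPolynomial.aeval (fun i => subst A (ξ i)) q
      = subst A (MvPolynomial.aeval ξ q) := by
    intro q
    have h1 : MvPolynomial.aeval (fun i => subst A (ξ i))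
        = (substAlgHom hAs).comp (MvPolynomial.aeval ξ) := by
      ext1 i
      rw [AlgHom.comp_apply, MvPolynomial.aeval_X, MvPolynomial.aeval_X, coe_substAlgHom]
    rw [h1, AlgHom.comp_apply, coe_substAlgHom]
  have hsz : ∀ (n : ℕ) (U : MvPowerSeries σ ℂ), subst A (X z ^ n * U) = X z ^ n * subst A U := by
    intro n U
    rw [subst_mul hAs, subst_pow hAs, subst_X hAs, hAz]
  have hlin : ∀ r t, constantCoeff (pderiv ℂ r (subst A (w t))) = if r = t then 1 else 0 := by
    intro r t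
    rw [pderiv_subst hAs, map_sum]
    have h1 := congrFun (congrFun hWW r) t
    rw [Matrix.mul_apply, Matrix.one_apply] at h1
    rw [← h1]
    refine Finset.sum_congr rfl fun s _ => ?_
    rw [map_mul, hAd, constantCoeff_subst' hAs hA0, constantCoeff_C, mul_comm]
    rfl
  have hcoef : ∀ r t, coeff (Finsupp.single r 1) (subst A (w t)) = if r = t then 1 else 0 := by
    intro r t
    rw [← hlin r t, ← coeff_zero_eq_constantCoeff_apply, coeff_pderiv]
    simp
  have hcoord : ∀ t, IsCoord z t (subst A (w t)) := by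
    intro t
    refine ⟨by rw [constantCoeff_subst' hAs hA0, hw0], ?_, ?_⟩
    · rw [hcoef, if_pos rfl]; exact one_ne_zero
    · intro l _ hlt
      rw [hcoef, if_neg hlt]
  refine rees_rootL f b H hb z (fun i => subst A (ξ i))
    (by rw [hsub, constantCoeff_subst' hAs hA0]; exact hHc) k a l hl
    (C (W⁻¹).det * subst A U0) (subst A U1) (subst A U2) ?_ ?_ ?_ ?_ j0 ?_ ?_ p ?_ ?_
  · rw [map_mul, constantCoeff_C, constantCoeff_subst' hAs hA0]
    refine mul_ne_zero ?_ hU0
    intro h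
    have := congrArg Matrix.det hWW
    rw [Matrix.det_mul, h, zero_mul, Matrix.det_one] at this
    exact zero_ne_one this
  · rwa [constantCoeff_subst' hAs hA0]
  · rwa [constantCoeff_subst' hAs hA0]
  · have h1 : (Matrix.of fun t i => pderiv ℂ t (subst A (ξ i)))
        = (W⁻¹).map C * (Matrix.of fun s i => pderiv ℂ s (ξ i)).map (substAlgHom hAs) := by
      ext1 t i
      rw [Matrix.of_apply, pderiv_subst hAs, Matrix.mul_apply]
      refine Finset.sum_congr rfl fun s _ => ?_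
      rw [hAd, Matrix.map_apply, Matrix.map_apply, Matrix.of_apply, coe_substAlgHom, mul_comm]
    rw [h1, Matrix.det_mul]
    have h2 : ((W⁻¹).map (C : ℂ →+* MvPowerSeries σ ℂ)).det = C (W⁻¹).det :=
      (RingHom.map_det (C : ℂ →+* MvPowerSeries σ ℂ) W⁻¹).symm
    have h3 : ((Matrix.of fun s i => pderiv ℂ s (ξ i)).map (substAlgHom hAs)).det
        = substAlgHom hAs (Matrix.of fun s i => pderiv ℂ s (ξ i)).det :=
      (RingHom.map_det (substAlgHom (R := ℂ) hAs : MvPowerSeries σ ℂ →+* MvPowerSeries σ ℂ)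
        (Matrix.of fun s i => pderiv ℂ s (ξ i))).symm
    rw [h2, h3, hJ, coe_substAlgHom, hsz]
    ring
  · intro j
    rw [hsub]
    obtain ⟨g, hg⟩ := hf j
    exact ⟨subst A g, by rw [hg, hsz]⟩
  · rw [hsub, hj0, hsz]
  · rw [hsub, hp, hsz]
  · intro t ht
    rcases htype t ht with ⟨q, hq⟩ | ⟨c, hc⟩
    · left
      refine ⟨q, ?_⟩
      rw [hsub, hq]
      exact hcoord t
    · right
      refine ⟨c, subst A (w t), hcoord t, ?_⟩
      simp only [hsub]
      rw [← subst_mul hAs, ← hc, ← coe_substAlgHom hAs, map_sum]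
      refine Finset.sum_congr rfl fun j _ => ?_
      rw [map_smul]

end Coordinates

end Pool.Agent.W574.LM
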