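import Pool.Agent.W574.LM.TwR
import Pool.Agent.W574.SM.Blow

set_option autoImplicit false
set_option linter.unusedSectionVars false
set_option linter.unusedVariables false

/-! # Roots in dimension two, from Rees divisors and curves, local functional equations -/

namespace Pool.Agent.W574.LM

open Pool.Agent.W574.SM

section PR

open MvPowerSeries

variable {ι : Type} [Fintype ι] [DecidableEq ι]

/-- **Roots from Rees divisors** over the plane. -/
theorem plane_reesL (f : ι → MP) (b : Polynomial ℂ) (H : MP) (hb : IsLocEq H f b)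
    (ξ : Fin 2 → MP)
    (a n : ℕ) (ha : 0 < a) (hn : 1 ≤ n) (G : ι → MP)
    (hf : ∀ j, MvPolynomial.aeval ξ (f j) = MvPolynomial.X 0 ^ a * G j) (Jp : MP)
    (hJ : jac ξ = MvPolynomial.X 0 ^ (n - 1) * Jp) (c : ℂ)
    (hHc : MvPolynomial.eval ![0, c] (MvPolynomial.aeval ξ H) ≠ 0)
    (hJc : MvPolynomial.eval ![0, c] Jp ≠ 0) (j0 i0 : ι)
    (hj0 : MvPolynomial.eval ![0, c] (G j0) ≠ 0)
    (hw : MvPolynomial.eval ![0, c] (MvPolynomial.pderiv 1 (G i0) * G j0
      - G i0 * MvPolynomial.pderiv 1 (G j0)) ≠ 0) :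
    b.eval (-(n : ℂ) / a) = 0 := by
  set A : Fin 2 → PS := ![X 0, X 1 + C c] with hA
  set g : MP → PS := fun q => MvPolynomial.aeval A q with hg
  have hcc : (fun i => constantCoeff (A i)) = ![0, c] := by
    funext i
    fin_cases i <;> simp [hA]
  have hgc : ∀ q, constantCoeff (g q) = MvPolynomial.eval ![0, c] q := by
    intro q
    rw [hg]
    simp only
    rw [constantCoeff_aeval, hcc]
  have hgd : ∀ q, pderiv ℂ 1 (g q) = g (MvPolynomial.pderiv 1 q) := by
    intro q
    rw [hg]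
    simp only
    rw [pderiv_aeval, Fin.sum_univ_two]
    simp only [hA, Matrix.cons_val_zero, Matrix.cons_val_one, map_add]
    rw [pderiv_X_of_ne (by decide), pderiv_X_self]
    have : pderiv ℂ 1 (C c : PS) = 0 := (pderiv ℂ 1).map_algebraMap c
    rw [this]
    ring
  have hg0 : g (MvPolynomial.X 0) = X 0 := by
    rw [hg]; simp only; rw [MvPolynomial.aeval_X]; rfl
  have hgm : ∀ p q, g (p * q) = g p * g q := fun p q => map_mul _ p q
  have hgs : ∀ p q, g (p - q) = g p - g q := fun p q => map_sub _ p q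
  have hgp : ∀ p k, g (p ^ k) = g p ^ k := fun p k => map_pow _ p k
  set ζ : Fin 2 → PS := fun i => g (ξ i) with hζ
  have hζa : ∀ q, MvPolynomial.aeval ζ q = g (MvPolynomial.aeval ξ q) := fun q =>
    aeval_aeval A ξ q
  have hdA : (Matrix.of fun t s => pderiv ℂ t (A s)).det = 1 := by
    rw [Matrix.det_fin_two]
    simp only [Matrix.of_apply, hA, Matrix.cons_val_zero, Matrix.cons_val_one, map_add]
    have h0 : ∀ t, pderiv ℂ t (C c : PS) = 0 := fun t => (pderiv ℂ t).map_algebraMap c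
    rw [h0, h0, pderiv_X_self, pderiv_X_self, pderiv_X_of_ne (by decide),
      pderiv_X_of_ne (by decide)]
    ring
  set lam : ℂ := MvPolynomial.eval ![0, c] (G i0) / MvPolynomial.eval ![0, c] (G j0) with hlam
  set U1 : PS := g (G j0) with hU1
  have hU1c : constantCoeff U1 ≠ 0 := by rw [hU1, hgc]; exact hj0
  set N : PS := g (G i0) - lam • U1 with hN
  have hNc : constantCoeff N = 0 := by
    rw [hN, map_sub, hU1, hgc]
    have : constantCoeff (lam • g (G j0)) = lam * constantCoeff (g (G j0)) := by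
      rw [smul_eq_C_mul, map_mul, constantCoeff_C]
    rw [this, hgc, hlam, div_mul_cancel₀ _ hj0, sub_self]
  set w1 : PS := N * U1⁻¹ with hw1
  have hU1i : U1⁻¹ * U1 = 1 := MvPowerSeries.inv_mul_cancel U1 hU1c
  have hw1U : U1 * w1 = N := by
    rw [hw1]
    linear_combination N * hU1i
  have hw1c : constantCoeff w1 = 0 := by rw [hw1, map_mul, hNc, zero_mul]
  have hw1d : constantCoeff (pderiv ℂ 1 w1) ≠ 0 := by
    intro h0
    apply hw
    have h1 : constantCoeff (pderiv ℂ 1 (U1 * w1)) = constantCoeff (pderiv ℂ 1 N) := by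
      rw [hw1U]
    have h1' : constantCoeff (pderiv ℂ 1 (U1 * w1))
        = constantCoeff U1 * constantCoeff (pderiv ℂ 1 w1)
          + constantCoeff w1 * constantCoeff (pderiv ℂ 1 U1) := by
      rw [Derivation.leibniz, smul_eq_mul, smul_eq_mul, map_add, map_mul constantCoeff,
        map_mul constantCoeff]
    rw [h1', h0, hw1c, mul_zero, zero_mul, add_zero, hN, map_sub, Derivation.map_smul, hgd, hU1,
      hgd, map_sub, smul_eq_C_mul, map_mul constantCoeff, constantCoeff_C, hgc, hgc] at h1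
    rw [map_sub, map_mul, map_mul]
    have h2 : MvPolynomial.eval ![0, c] (G i0) = lam * MvPolynomial.eval ![0, c] (G j0) := by
      rw [hlam, div_mul_cancel₀ _ hj0]
    rw [h2]
    linear_combination -(MvPolynomial.eval ![0, c] (G j0)) * h1
  set w : Fin 2 → PS := ![X 0, w1] with hww
  have hres := rees_coordsL f b H hb 0 ζ (by rw [hζa, hgc]; exact hHc) (n - 1) a 0 ha (g Jp) U1 1 (by rw [hgc]; exact hJc) hU1c
    (by simp) (by
      rw [hζ]
      have := det_aeval A ξ
      rw [this, hdA, one_mul, hJ]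
      have h2 := hgm (MvPolynomial.X 0 ^ (n - 1)) Jp
      rw [hgp, hg0] at h2
      exact h2) j0 (fun j => ⟨g (G j), by rw [hζa, hf, hgm, hgp, hg0]⟩)
    (by rw [hζa, hf, hgm, hgp, hg0]) 1 (by simp) w rfl (by
      intro t
      fin_cases t
      · simp [hww]
      · simpa [hww] using hw1c) (by
      rw [Matrix.det_fin_two]
      simp only [Matrix.of_apply, hww, Matrix.cons_val_zero, Matrix.cons_val_one]
      rw [pderiv_X_self, pderiv_X_of_ne (by decide), map_one, map_zero, mul_zero, sub_zero,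
        one_mul]
      exact hw1d) (by
      intro t ht
      have ht1 : t = 1 := by omega
      subst ht1
      right
      refine ⟨Pi.single i0 1 - lam • Pi.single j0 1, ?_⟩
      have hw1' : w 1 = w1 := rfl
      rw [sum_single_sub, hζa, hζa, hf, hf, hgm, hgm, hgp, hg0, hw1', mul_assoc, hw1U, hN,
        mul_sub, mul_smul_comm])
  have hn' : ((n - 1 : ℕ) : ℂ) + 1 + (0 : ℕ) = n := by
    rw [Nat.cast_sub hn]; push_cast; ring
  rwa [hn'] at hres

/-- The root `-1/m` from a curve of multiplicity `m`. -/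
theorem plane_curveL (f : ι → MP) (b : Polynomial ℂ) (H : MP) (hb : IsLocEq H f b)
    (ξ : Fin 2 → MP)
    (m : ℕ) (hm : 0 < m) (h : MP) (k : ι → MP)
    (hf : ∀ j, MvPolynomial.aeval ξ (f j) = h ^ m * k j) (p0 p1 : ℂ)
    (hh : MvPolynomial.eval ![p0, p1] h = 0)
    (hh1 : MvPolynomial.eval ![p0, p1] (MvPolynomial.pderiv 1 h) ≠ 0)
    (hJ : MvPolynomial.eval ![p0, p1] (jac ξ) ≠ 0)
    (hHc : MvPolynomial.eval ![p0, p1] (MvPolynomial.aeval ξ H) ≠ 0) (j0 : ι)
    (hj0 : MvPolynomial.eval ![p0, p1] (k j0) ≠ 0) :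
    b.eval (-1 / (m : ℂ)) = 0 := by
  obtain ⟨V, hV0, hV⟩ := exists_implicit h p0 p1 hh hh1
  set A : Fin 2 → PS := ![C p0 + X 0, C p1 + V] with hA
  set g : MP → PS := fun q => MvPolynomial.aeval A q with hg
  have hcc : (fun i => constantCoeff (A i)) = ![p0, p1] := by
    funext i
    fin_cases i
    · simp [hA]
    · simp [hA, hV0]
  have hgc : ∀ q, constantCoeff (g q) = MvPolynomial.eval ![p0, p1] q := by
    intro q
    rw [hg]
    simp only
    rw [constantCoeff_aeval, hcc]
  have hgm : ∀ p q, g (p * q) = g p * g q := fun p q => map_mul _ p q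
  have hgp : ∀ p k, g (p ^ k) = g p ^ k := fun p k => map_pow _ p k
  have hgh : g h = X 1 := hV
  set ζ : Fin 2 → PS := fun i => g (ξ i) with hζ
  have hζa : ∀ q, MvPolynomial.aeval ζ q = g (MvPolynomial.aeval ξ q) := fun q =>
    aeval_aeval A ξ q
  have hC0 : ∀ (t : Fin 2) (c : ℂ), pderiv ℂ t (C c : PS) = 0 := fun t c =>
    (pderiv ℂ t).map_algebraMap c
  have hA0 : ∀ t, pderiv ℂ t (A 0) = pderiv ℂ t (X 0) := by
    intro t
    have h1 : A 0 = C p0 + X 0 := rfl
    rw [h1, map_add, hC0, zero_add]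
  have hA1 : ∀ t, pderiv ℂ t (A 1) = pderiv ℂ t V := by
    intro t
    have h1 : A 1 = C p1 + V := rfl
    rw [h1, map_add, hC0, zero_add]
  -- the derivative of the implicit function
  have hVd : g (MvPolynomial.pderiv 1 h) * pderiv ℂ 1 V = 1 := by
    have h1 : pderiv ℂ 1 (g h) = 1 := by rw [hgh, pderiv_X_self]
    rw [hg] at h1
    simp only at h1
    rw [pderiv_aeval, Fin.sum_univ_two, hA0, hA1, pderiv_X_of_ne (by decide), mul_zero,
      zero_add] at h1
    exact h1
  have hVc : constantCoeff (pderiv ℂ 1 V) ≠ 0 := by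
    intro h0
    have := congrArg constantCoeff hVd
    rw [map_mul, h0, mul_zero, map_one] at this
    exact zero_ne_one this
  have hdA : (Matrix.of fun t s => pderiv ℂ t (A s)).det = pderiv ℂ 1 V := by
    rw [Matrix.det_fin_two]
    simp only [Matrix.of_apply]
    rw [hA0, hA0, hA1, hA1, pderiv_X_self, pderiv_X_of_ne (by decide)]
    ring
  have hdet := det_aeval A ξ
  rw [hdA] at hdet
  -- a coordinate
  have hex : ∃ t : Fin 2, constantCoeff (pderiv ℂ 0 (ζ t)) ≠ 0 := by
    by_contra hne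
    push Not at hne
    have h1 := congrArg constantCoeff hdet
    rw [Matrix.det_fin_two] at h1
    simp only [Matrix.of_apply] at h1
    rw [map_sub, map_mul, map_mul] at h1
    have h2 : constantCoeff (pderiv ℂ 0 (MvPolynomial.aeval A (ξ 0))) = 0 := hne 0
    have h3 : constantCoeff (pderiv ℂ 0 (MvPolynomial.aeval A (ξ 1))) = 0 := hne 1
    rw [h2, h3, map_mul] at h1
    have h4 : constantCoeff (MvPolynomial.aeval A (jac ξ)) ≠ 0 := by
      have := hgc (jac ξ)
      rw [hg] at this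
      simp only at this
      rw [this]
      exact hJ
    exact mul_ne_zero hVc h4 (by rw [← h1]; ring)
  obtain ⟨t0, ht0⟩ := hex
  set w0 : PS := ζ t0 - C (constantCoeff (ζ t0)) with hw0
  set w : Fin 2 → PS := ![w0, X 1] with hww
  have hres := rees_coordsL f b H hb 1 ζ (by rw [hζa, hgc]; exact hHc) 0 m 0 hm (pderiv ℂ 1 V * g (jac ξ)) (g (k j0)) 1
    (by rw [map_mul, hgc]; exact mul_ne_zero hVc hJ) (by rw [hgc]; exact hj0)
    (by simp) (by
      rw [pow_zero, one_mul]
      exact hdet) j0 (fun j => ⟨g (k j), by rw [hζa, hf, hgm, hgp, hgh]⟩)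
    (by rw [hζa, hf, hgm, hgp, hgh]) 1 (by simp) w rfl (by
      intro t
      fin_cases t
      · simp [hww, hw0]
      · simp [hww]) (by
      rw [Matrix.det_fin_two]
      simp only [Matrix.of_apply, hww, Matrix.cons_val_zero, Matrix.cons_val_one]
      rw [pderiv_X_self, pderiv_X_of_ne (by decide), map_one, map_zero, zero_mul, sub_zero,
        mul_one, hw0, map_sub, hC0, sub_zero]
      exact ht0) (by
      intro t ht
      have ht1 : t = 0 := by omega
      subst ht1
      left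
      refine ⟨MvPolynomial.X t0 - MvPolynomial.C (constantCoeff (ζ t0)), ?_⟩
      rw [map_sub, MvPolynomial.aeval_X, MvPolynomial.aeval_C]
      rfl)
  have hn' : -(((0 : ℕ) : ℂ) + 1 + (0 : ℕ)) = -1 := by push_cast; ring
  rwa [hn'] at hres

end PR

section NC

open MvPolynomial

variable {ι : Type} [Fintype ι] [DecidableEq ι]

/-- The root `-1/m` from a curve of multiplicity `m`. -/
theorem plane_curve'L (f : ι → MP) (b : Polynomial ℂ) (H : MP) (hb : IsLocEq H f b)
    (ξ : Fin 2 → MP)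
    (m : ℕ) (hm : 0 < m) (h : MP) (k : ι → MP)
    (hf : ∀ j, aeval ξ (f j) = h ^ m * k j) (p0 p1 : ℂ)
    (hh : eval ![p0, p1] h = 0)
    (hh1 : eval ![p0, p1] (pderiv 0 h) ≠ 0)
    (hJ : eval ![p0, p1] (jac ξ) ≠ 0) (hHc : eval ![p0, p1] (aeval ξ H) ≠ 0) (j0 : ι)
    (hj0 : eval ![p0, p1] (k j0) ≠ 0) :
    b.eval (-1 / (m : ℂ)) = 0 := by
  refine plane_curveL f b H hb (fun i => sw (ξ i)) m hm (sw h) (fun j => sw (k j)) ?_ p1 p0 ?_ ?_
    ?_ ?_ j0 ?_
  · intro j
    rw [aeval_sw, hf, map_mul, map_pow]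
  · rw [eval_sw, hh]
  · rw [(pderiv_sw h).2, eval_sw]; exact hh1
  · rw [jac_sw, map_neg, eval_sw]; exact neg_ne_zero.2 hJ
  · rw [aeval_sw, eval_sw]; exact hHc
  · rw [eval_sw]; exact hj0

theorem node_curveVL (f : ι → MP) (b : Polynomial ℂ) (H : MP) (hb : IsLocEq H f b)
    (ξ : Fin 2 → MP) (hHc : constantCoeff (aeval ξ H) ≠ 0)
    (W W' : MP) (hW : constantCoeff W ≠ 0) (hW' : constantCoeff W' ≠ 0) (a0 n0 : ℕ)
    (m : ℕ) (hm : 0 < m) (h : MP) (k : ι → MP)
    (hf : ∀ j, aeval ξ (f j) = X 0 ^ a0 * W * (h ^ m * k j)) (hJ : jac ξ = X 0 ^ (n0 - 1) * W')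
    (h0 : constantCoeff h = 0) (h1 : constantCoeff (pderiv 1 h) ≠ 0)
    (j0 : ι) (hj0 : constantCoeff (k j0) ≠ 0) :
    b.eval (-1 / (m : ℂ)) = 0 := by
  have hne : h ≠ 0 := by
    rintro rfl
    rw [map_zero, map_zero] at h1
    exact h1 rfl
  obtain ⟨p, hp, ⟨q, hq⟩, hp0⟩ := exists_prime_through h h0 hne
  have hD : ¬ p ∣ X 0 * (pderiv 1 h * (W * (W' * (k j0 * aeval ξ H)))) := by
    intro hd
    rcases hp.dvd_or_dvd hd with hd | hd
    · obtain ⟨r, hr⟩ := hd
      have e0 : constantCoeff (pderiv 0 (X 0 : MP)) = constantCoeff (pderiv 0 (p * r)) := by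
        rw [← hr]
      have e1 : constantCoeff (pderiv 1 (X 0 : MP)) = constantCoeff (pderiv 1 (p * r)) := by
        rw [← hr]
      rw [Derivation.leibniz, smul_eq_mul, smul_eq_mul, map_add, map_mul constantCoeff,
        map_mul constantCoeff, hp0, zero_mul, zero_add, pderiv_X_self, map_one] at e0
      rw [Derivation.leibniz, smul_eq_mul, smul_eq_mul, map_add, map_mul constantCoeff,
        map_mul constantCoeff, hp0, zero_mul, zero_add, pderiv_X_of_ne (by decide), map_zero] at e1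
      have hr0 : constantCoeff r ≠ 0 := by
        intro h
        rw [h, zero_mul] at e0
        exact one_ne_zero e0
      have hp1 : constantCoeff (pderiv 1 p) = 0 :=
        (mul_eq_zero.1 e1.symm).resolve_left hr0
      apply h1
      rw [hq, Derivation.leibniz, smul_eq_mul, smul_eq_mul, map_add, map_mul constantCoeff,
        map_mul constantCoeff, hp0, hp1, zero_mul, mul_zero, add_zero]
    · rcases hp.dvd_or_dvd hd with hd | hd
      · exact h1 (cc_dvd hd hp0)
      · rcases hp.dvd_or_dvd hd with hd | hd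
        · exact hW (cc_dvd hd hp0)
        · rcases hp.dvd_or_dvd hd with hd | hd
          · exact hW' (cc_dvd hd hp0)
          · rcases hp.dvd_or_dvd hd with hd | hd
            · exact hj0 (cc_dvd hd hp0)
            · exact hHc (cc_dvd hd hp0)
  obtain ⟨P, hP1, hP2⟩ := exists_point p _ hp hD
  rw [map_mul, map_mul, map_mul, map_mul, map_mul, eval_X] at hP2
  have g0 := left_ne_zero_of_mul hP2
  have hP3 := right_ne_zero_of_mul hP2
  have g1 := left_ne_zero_of_mul hP3
  have hP4 := right_ne_zero_of_mul hP3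
  have g2 := left_ne_zero_of_mul hP4
  have hP5 := right_ne_zero_of_mul hP4
  have g3 := left_ne_zero_of_mul hP5
  have hP6 := right_ne_zero_of_mul hP5
  have g4 := left_ne_zero_of_mul hP6
  have g5 := right_ne_zero_of_mul hP6
  refine plane_curveL f b H hb ξ m hm h (fun j => X 0 ^ a0 * W * k j) (fun j => by rw [hf]; ring)
    (P 0) (P 1) ?_ ?_ ?_ ?_ j0 ?_
  · rw [← vec2, hq, map_mul, hP1, zero_mul]
  · rw [← vec2]; exact g1
  · rw [← vec2, hJ, map_mul, map_pow, eval_X]
    exact mul_ne_zero (pow_ne_zero _ g0) g3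
  · rw [← vec2]; exact g5
  · rw [← vec2, map_mul, map_mul, map_pow, eval_X]
    exact mul_ne_zero (mul_ne_zero (pow_ne_zero _ g0) g2) g4

theorem node_curveUL (f : ι → MP) (b : Polynomial ℂ) (H : MP) (hb : IsLocEq H f b)
    (ξ : Fin 2 → MP) (hHc : constantCoeff (aeval ξ H) ≠ 0)
    (W W' : MP) (hW : constantCoeff W ≠ 0) (hW' : constantCoeff W' ≠ 0) (a1 n1 : ℕ)
    (m : ℕ) (hm : 0 < m) (h : MP) (k : ι → MP)
    (hf : ∀ j, aeval ξ (f j) = X 1 ^ a1 * W * (h ^ m * k j)) (hJ : jac ξ = X 1 ^ (n1 - 1) * W')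
    (h0 : constantCoeff h = 0) (h1 : constantCoeff (pderiv 0 h) ≠ 0)
    (j0 : ι) (hj0 : constantCoeff (k j0) ≠ 0) :
    b.eval (-1 / (m : ℂ)) = 0 := by
  refine node_curveVL f b H hb (fun i => sw (ξ i)) (by rwa [aeval_sw, cc_sw]) (sw W) (- sw W')
    (by rwa [cc_sw])
    (by rw [map_neg, cc_sw]; exact neg_ne_zero.2 hW') a1 n1 m hm (sw h) (fun j => sw (k j))
    (fun j => ?_) ?_ (by rwa [cc_sw]) ?_ j0 (by rwa [cc_sw])
  · rw [aeval_sw, hf]
    simp only [map_mul, map_pow, sw_X1]
  · rw [jac_sw, hJ, map_mul, map_pow, sw_X1]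
    ring
  · rw [(pderiv_sw h).2, cc_sw]
    exact h1

end NC

end Pool.Agent.W574.LM
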