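import Pool.Agent.W574.LM.Core
import Pool.Agent.W574.SM.TwRoot

set_option autoImplicit false
set_option linter.unusedSectionVars false
set_option linter.unusedVariables false

/-! # Roots from divisors over the plane whose residue form is not exact,
local functional equations -/

namespace Pool.Agent.W574.LM

open Pool.Agent.W574.SM

attribute [-instance] HahnSeries.powerSeriesAlgebra

open HahnSeries

section TwRoot

variable {M : Type} [Field M] [Algebra ℂ M] (δ : Derivation ℂ M M) (x0 : M)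

open MvPolynomial (X aeval pderiv aeval_X) in
/-- **Roots from divisors over the plane**: the twisted residue form is not exact. -/
theorem tw_rootL {ι : Type} [Fintype ι] [DecidableEq ι] (hδ : δ x0 = 1)
    (f : ι → MvPolynomial (Fin 2) ℂ)
    (b : Polynomial ℂ) (H : MvPolynomial (Fin 2) ℂ) (hb : IsLocEq H f b)
    (ξ : Fin 2 → MvPolynomial (Fin 2) ℂ) (hHr : resM x0 (aeval ξ H) ≠ 0) (a n : ℕ)
    (ha : 0 < a) (hn : 1 ≤ n) (g : ι → MvPolynomial (Fin 2) ℂ)
    (hf : ∀ j, aeval ξ (f j) = X 0 ^ a * g j) (Jp : MvPolynomial (Fin 2) ℂ)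
    (hJ : (Matrix.of fun t i => pderiv t (ξ i)).det = X 0 ^ (n - 1) * Jp)
    (hJ0 : resM x0 Jp ≠ 0) (j0 : ι) (hj0 : resM x0 (g j0) ≠ 0)
    (hR : ∀ R : M, δ R + algebraMap ℂ M (-(n : ℂ) / a) *
      (δ (resM x0 (g j0)) * (resM x0 (g j0))⁻¹) * R ≠ resM x0 Jp) :
    b.eval (-(n : ℂ) / a) = 0 := by
  classical
  have hac : (a : ℂ) ≠ 0 := Nat.cast_ne_zero.2 ha.ne'
  have : CharZero (HahnSeries ℤ M) :=
    charZero_of_injective_algebraMap (algebraMap ℂ (HahnSeries ℤ M)).injective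
  set e0 : ℂ := -(n : ℂ) / a with he0
  set Q : M := resM x0 (g j0) with hQ
  have hQ0 : Q ≠ 0 := hj0
  set φ : MvPolynomial (Fin 2) ℂ →ₐ[ℂ] (HahnSeries ℤ M) := (emb2 x0).comp (aeval ξ) with hφ
  set θ : Fin 2 → Derivation ℂ (HahnSeries ℤ M) (HahnSeries ℤ M) :=
    ![hd (0 : Derivation ℂ M M) 1, hd δ 0] with hθ
  have hu : (single 1 1 : HahnSeries ℤ M) = emb2 x0 (X 0) := (emb2_X0 x0).symm
  -- the Jacobian
  have hdet : (Jac φ θ).det = single (n : ℤ) 1 * emb2 x0 Jp := by
    rw [hφ, hθ, det_jac δ x0 hδ, hJ, map_mul, map_pow, ← hu, ← mul_assoc, ← pow_succ',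
      Nat.sub_add_cancel hn, single_pow, one_pow]
    simp
  have hcJ : (emb2 x0 Jp).coeff 0 ≠ 0 := by
    rw [(emb2_coeff x0 Jp).2]; exact hJ0
  have hdet0 : (Jac φ θ).det.coeff n = resM x0 Jp := by
    have h := coeff_mul_ge (single_ge (M := M) (n : ℤ) 1) (emb2_ge x0 Jp)
    rw [add_zero] at h
    rw [hdet, h, coeff_single_same, one_mul, (emb2_coeff x0 Jp).2]
  have hJac0 : (Jac φ θ).det ≠ 0 := by
    apply ne_of_coeff (d := (n : ℤ))
    rw [hdet0]; exact hJ0
  have hJν : (Jac φ θ).det ∈ (filtZ M).ge n := by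
    rw [hdet]
    have := (filtZ M).mul (single_ge (n : ℤ) 1) (emb2_ge x0 Jp)
    rwa [add_zero] at this
  have hcomm : ∀ s t u, θ s (θ t u) = θ t (θ s u) := by
    intro s t u
    fin_cases s <;> fin_cases t
    · rfl
    · exact (hd_comm δ u).symm
    · exact hd_comm δ u
    · rfl
  -- the functions
  set w : HahnSeries ℤ M := emb2 x0 (g j0) with hw
  have hwge : w ∈ (filtZ M).ge 0 := emb2_ge x0 _
  have hwc : w.coeff 0 = Q := (emb2_coeff x0 _).2
  set w1 : HahnSeries ℤ M := w * C Q⁻¹ with hw1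
  have hw1ge : w1 ∈ (filtZ M).ge 0 := by
    have := (filtZ M).mul hwge (C_ge Q⁻¹)
    rwa [add_zero] at this
  have hw1c : w1.coeff 0 = 1 := by
    have h := coeff_mul_ge hwge (C_ge Q⁻¹)
    rw [add_zero] at h
    rw [hw1, h, hwc, C_apply, coeff_single_same, mul_inv_cancel₀ hQ0]
  obtain ⟨V, hVge, hVc, hVa⟩ := exists_root_LL w1 hw1ge hw1c a ha.ne'
  have hV0 : V ≠ 0 := ne_of_coeff (d := 0) (by rw [hVc]; exact one_ne_zero)
  have hVnge : ∀ k : ℕ, V ^ k ∈ (filtZ M).ge 0 ∧ (V ^ k).coeff 0 = 1 := by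
    intro k
    induction k with
    | zero =>
      rw [pow_zero]
      refine ⟨?_, by rw [coeff_one, if_pos rfl]⟩
      have := C_ge (1 : M)
      rwa [map_one] at this
    | succ k ih =>
      rw [pow_succ]
      refine ⟨?_, ?_⟩
      · have := (filtZ M).mul ih.1 hVge
        rwa [add_zero] at this
      · have := coeff_mul_ge ih.1 hVge
        rw [add_zero] at this
        rw [this, ih.2, hVc, one_mul]
  set Vn : HahnSeries ℤ M := (V ^ n)⁻¹ with hVn
  have hVn0 : V ^ n ≠ 0 := pow_ne_zero n hV0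
  have hVnge' : Vn ∈ (filtZ M).ge 0 := by
    have := inv_ge (hVnge n).1 (by rw [(hVnge n).2]; exact one_ne_zero)
    rwa [neg_zero] at this
  have hVnc : Vn.coeff 0 = 1 := by
    have h := coeff_mul_ge (hVnge n).1 hVnge'
    rw [add_zero, hVn, mul_inv_cancel₀ hVn0, (hVnge n).2, one_mul, coeff_one, if_pos rfl] at h
    exact h.symm
  -- the functional
  set D : M →ₗ[ℂ] M := (δ : M →ₗ[ℂ] M) +
    LinearMap.mulLeft ℂ (algebraMap ℂ M e0 * (δ Q * Q⁻¹)) with hD
  have hDa : ∀ R, D R = δ R + algebraMap ℂ M e0 * (δ Q * Q⁻¹) * R := fun R => rfl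
  have hnot : resM x0 Jp ∉ LinearMap.range D := by
    rintro ⟨R, hR1⟩
    exact hR R ((hDa R).symm.trans hR1)
  obtain ⟨T', hT'1, hT'2⟩ := Submodule.exists_le_ker_of_notMem hnot
  have hT'3 : ∀ R, T' (δ R + algebraMap ℂ M e0 * (δ Q * Q⁻¹) * R) = 0 := by
    intro R
    exact hT'2 ⟨R, hDa R⟩
  set T : HahnSeries ℤ M →ₗ[ℂ] ℂ :=
    { toFun := fun x => T' ((x * Vn).coeff n)
      map_add' := fun x y => by rw [add_mul, coeff_add, map_add]
      map_smul' := fun c x => by
        rw [smul_mul_assoc, coeff_smul, map_smul, RingHom.id_apply] } with hT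
  have hTa : ∀ x, T x = T' ((x * Vn).coeff n) := fun x => rfl
  -- the logarithmic derivatives
  set G : Unit → HahnSeries ℤ M := fun _ => φ (f j0) with hG
  have hG1 : φ (f j0) = single (a : ℤ) 1 * w := by
    rw [hφ, AlgHom.comp_apply, hf, map_mul, map_pow, ← hu, single_pow, one_pow]
    simp [hw]
  have hw0 : w ≠ 0 := ne_of_coeff (d := 0) (by rw [hwc]; exact hQ0)
  have hs0 : (single (a : ℤ) 1 : HahnSeries ℤ M) ≠ 0 := by
    apply ne_of_coeff (d := (a : ℤ))
    rw [coeff_single_same]; exact one_ne_zero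
  have hGne : ∀ m, G m ≠ 0 := fun m => by
    rw [hG]; simp only; rw [hG1]; exact mul_ne_zero hs0 hw0
  have hCQ : (C Q : HahnSeries ℤ M) ≠ 0 := by
    apply ne_of_coeff (d := 0)
    rw [C_apply, coeff_single_same]; exact hQ0
  have hwV : w = C Q * V ^ a := by
    rw [hVa, hw1, mul_comm w, ← mul_assoc, ← map_mul, mul_inv_cancel₀ hQ0, map_one, one_mul]
  have hlog : ∀ d : Derivation ℂ (HahnSeries ℤ M) (HahnSeries ℤ M), d (φ (f j0)) * (φ (f j0))⁻¹
      = d (single (a : ℤ) 1) * (single (a : ℤ) 1 : HahnSeries ℤ M)⁻¹ + (d (C Q) * (C Q)⁻¹ +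
        (a : HahnSeries ℤ M) * (d V * V⁻¹)) := by
    intro d
    rw [hG1, dlog_mul d hs0 hw0, hwV, dlog_mul d hCQ (pow_ne_zero _ hV0), dlog_pow d hV0]
  have hVnd : ∀ d : Derivation ℂ (HahnSeries ℤ M) (HahnSeries ℤ M),
      d Vn = - ((n : HahnSeries ℤ M) * (d V * V⁻¹)) * Vn := by
    intro d
    have h1 := dlog_inv d hVn0
    rw [dlog_pow d hV0] at h1
    have := eq_of_dlog d (inv_ne_zero hVn0) h1
    rw [hVn, this]
    ring
  have haL : (a : HahnSeries ℤ M) ≠ 0 := Nat.cast_ne_zero.2 ha.ne'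
  have heL : algebraMap ℂ (HahnSeries ℤ M) e0 * (a : HahnSeries ℤ M) = - (n : HahnSeries ℤ M) := by
    rw [he0, map_div₀, map_neg, map_natCast, map_natCast, div_mul_cancel₀ _ haL]
  have hTθ : ∀ t u, T (θ t u + Om θ (fun _ : Unit => e0) G t * u) = 0 := by
    intro t u
    have hOm : Om θ (fun _ : Unit => e0) G t
        = algebraMap ℂ (HahnSeries ℤ M) e0 * (θ t (φ (f j0)) * (φ (f j0))⁻¹) := by
      rw [Om, Finset.univ_unique, Finset.sum_singleton]
    have h1 : (θ t u + Om θ (fun _ : Unit => e0) G t * u) * Vn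
        = θ t (u * Vn) + algebraMap ℂ (HahnSeries ℤ M) e0 *
          (θ t (single (a : ℤ) 1) * (single (a : ℤ) 1 : HahnSeries ℤ M)⁻¹
          + θ t (C Q) * (C Q)⁻¹) * (u * Vn) := by
      rw [hOm, hlog, Derivation.leibniz, smul_eq_mul, smul_eq_mul, hVnd]
      have h2 : algebraMap ℂ (HahnSeries ℤ M) e0 * (a * (θ t V * V⁻¹))
          = - ((n : HahnSeries ℤ M) * (θ t V * V⁻¹)) := by
        rw [← mul_assoc, heL, neg_mul]
      linear_combination u * Vn * h2
    rw [hTa, h1]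
    have ht : t = 0 ∨ t = 1 := by omega
    rcases ht with rfl | rfl
    · have hθ0 : θ 0 = hd (0 : Derivation ℂ M M) 1 := rfl
      rw [hθ0]
      have h2 : hd (0 : Derivation ℂ M M) 1 (C Q : HahnSeries ℤ M) = 0 := by
        ext g
        rw [coeff_hd, C_apply, coeff_single]
        split_ifs with h
        · rw [h]; simp
        · simp
      have h3 : hd (0 : Derivation ℂ M M) 1 (single (a : ℤ) 1 : HahnSeries ℤ M)
          = (a : HahnSeries ℤ M) * single (a : ℤ) 1 := by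
        ext g
        have h4 : (a : HahnSeries ℤ M) = C (a : M) := by rw [map_natCast]
        rw [coeff_hd, h4, C_mul_eq_smul, coeff_smul, coeff_single]
        split_ifs with h
        · rw [h]; simp
        · simp
      rw [h2, h3, zero_mul, add_zero, mul_assoc (a : HahnSeries ℤ M), mul_inv_cancel₀ hs0,
        mul_one, heL, coeff_add, coeff_hd]
      have h5 : (-(n : HahnSeries ℤ M) * (u * Vn)).coeff n = - (n : M) * (u * Vn).coeff n := by
        have h4 : (-(n : HahnSeries ℤ M)) = C (-(n : M)) := by rw [map_neg, map_natCast]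
        rw [h4, C_mul_eq_smul, coeff_smul, smul_eq_mul]
      rw [h5]
      simp
    · have hθ1 : θ 1 = hd δ 0 := rfl
      rw [hθ1]
      have h2 : hd δ 0 (C Q : HahnSeries ℤ M) = C (δ Q) := by
        ext g
        rw [coeff_hd, C_apply, C_apply, coeff_single, coeff_single]
        split_ifs with h
        · simp
        · simp
      have h3 : hd δ 0 (single (a : ℤ) 1 : HahnSeries ℤ M) = 0 := by
        ext g
        rw [coeff_hd, coeff_single]
        split_ifs with h
        · rw [Derivation.map_one_eq_zero]; simp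
        · simp
      have h4 : (C Q : HahnSeries ℤ M)⁻¹ = C Q⁻¹ := (map_inv₀ C Q).symm
      have h5 : algebraMap ℂ (HahnSeries ℤ M) e0 * (0 * (single (a : ℤ) 1 : HahnSeries ℤ M)⁻¹
          + C (δ Q) * C Q⁻¹) = C (algebraMap ℂ M e0 * (δ Q * Q⁻¹)) := by
        rw [zero_mul, zero_add, map_mul, map_mul]
        rfl
      rw [h2, h3, h4, h5, coeff_add, coeff_hd, C_mul_eq_smul, coeff_smul, smul_eq_mul]
      simp only [zero_mul, Int.cast_zero, add_zero]
      exact hT'3 _
  have hT1 : ∀ u ∈ (filtZ M).ge (n + 1), T u = 0 := by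
    intro u hu
    have h1 := (filtZ M).mul hu hVnge'
    rw [hTa, coeff_of_lt h1 (by omega), map_zero]
  have hfge : ∀ j, φ (f j) ∈ (filtZ M).ge a := by
    intro j
    have h1 : φ (f j) = single (a : ℤ) 1 * emb2 x0 (g j) := by
      rw [hφ, AlgHom.comp_apply, hf, map_mul, map_pow, ← hu, single_pow, one_pow]
      simp
    rw [h1]
    have := (filtZ M).mul (single_ge (a : ℤ) 1) (emb2_ge x0 (g j))
    rwa [add_zero] at this
  have hGc : (φ (f j0)).coeff a = Q := by
    have h := coeff_mul_ge (single_ge (a : ℤ) (1 : M)) hwge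
    rw [add_zero] at h
    rw [hG1, h, coeff_single_same, one_mul, hwc]
  have hGa : ∀ m, (G m)⁻¹ ∈ (filtZ M).ge (-(a : ℤ)) := by
    intro m
    exact inv_ge (hfge j0) (by rw [hGc]; exact hQ0)
  have hHg : φ H ∈ (filtZ M).ge 0 := emb2_ge x0 _
  have hHcf : (φ H).coeff 0 ≠ 0 := by
    have := (emb2_coeff x0 (aeval ξ H)).2
    have h2 : φ H = emb2 x0 (aeval ξ H) := rfl
    rw [h2, this]
    exact hHr
  have h10 : φ H ≠ 0 := ne_of_coeff (d := 0) hHcf
  have hHi : (φ H)⁻¹ ∈ (filtZ M).ge 0 := by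
    have := inv_ge hHg hHcf
    rwa [neg_zero] at this
  have hS3 : ∀ u ∈ frac φ H h10, u ∈ (filtZ M).ge 0 := by
    rintro u ⟨p, k, rfl⟩
    have h2 : φ p ∈ (filtZ M).ge 0 := emb2_ge x0 _
    have h3 := Filt.pow hHi k
    rw [mul_zero] at h3
    have h4 := (filtZ M).mul h2 h3
    rw [add_zero, inv_pow] at h4
    exact h4
  have hρS : (φ H)⁻¹ ∈ frac φ H h10 := ⟨1, 1, by simp⟩
  have hkey := engine_twL φ θ f (fun _ : Unit => Pi.single j0 1) (fun _ => e0) G
    (filtZ M) a n (by exact_mod_cast ha) hJac0 hJν hcomm T hTθ hT1 hfge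
    (fun m => by
      rw [hG]
      simp only
      rw [Finset.sum_eq_single j0]
      · rw [Pi.single_eq_same, map_one, one_mul]
      · intro j _ hj
        rw [Pi.single_eq_of_ne hj, map_zero, zero_mul]
      · intro h; exact absurd (Finset.mem_univ j0) h) hGne hGa (frac φ H h10)
    (frac_phi φ H h10) (fun i u hu => frac_DD φ θ hJac0 H h10 i u hu) hS3 b H hb (φ H)⁻¹ hρS
  rw [Finset.univ_unique, Finset.sum_singleton, inv_mul_cancel₀ h10, mul_one] at hkey
  have hT2 : T (Jac φ θ).det ≠ 0 := by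
    have h := coeff_mul_ge hJν hVnge'
    rw [add_zero] at h
    rw [hTa, h, hVnc, mul_one, hdet0]
    exact hT'1
  exact (mul_eq_zero.1 hkey).resolve_right hT2


end TwRoot

end Pool.Agent.W574.LM
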